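import Pool.Agent.Q263.IW.Main
import Pool.Agent.Q263.IV.Pol

/-!
# Walls in general position and polynomial perturbations of tables with corners
-/

set_option autoImplicit false

open Set MeasureTheory Function Filter Topology
open scoped ContDiff

namespace Q263.IW

open Pool.Agent.Y322.IV Q263.IV

section defs
variable {E : Type} [NormedAddCommGroup E] [InnerProductSpace ℝ E] [CompleteSpace E] {m : ℕ}

/-- The phase points whose trajectory comes back to one of its bounce points without having met the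
wall of this point in the meantime. -/
def ReturnWall (h : Fin m → E → ℝ) : Set (E × E) :=
  {x | ∃ (n : ℕ) (ι : ℕ → Fin m) (p u : ℕ → E), WTraj h n ι p u ∧ p 0 = x.1 ∧ u 0 = x.2 ∧
    ∃ a b : ℕ, a < b ∧ b ≤ n ∧ p b = p a ∧ ∀ k, a < k → k < b → ι k ≠ ι a}

/-- The periodic phase points whose trajectory meets some wall exactly once in a period. -/
def PerOnce (h : Fin m → E → ℝ) : Set (E × E) :=
  {x | ∃ (n : ℕ) (ι : ℕ → Fin m) (p u : ℕ → E), 1 ≤ n ∧ WTraj h n ι p u ∧ p 0 = x.1 ∧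
    u 0 = x.2 ∧ p n = x.1 ∧ u n = x.2 ∧ ∃ a < n, ∀ k < n, k ≠ a → ι k ≠ ι a}

/-- The phase points whose trajectory meets some boundary point twice within `N` bounces. -/
def WTwice (N : ℕ) (h : Fin m → E → ℝ) : Set (E × E) :=
  {x | ∃ (n : ℕ) (ι : ℕ → Fin m) (p u : ℕ → E), n ≤ N ∧ WTraj h n ι p u ∧ p 0 = x.1 ∧
    u 0 = x.2 ∧ ∃ a b : ℕ, a < b ∧ b ≤ n ∧ p b = p a}

/-- The periodic phase points of period at most `N`. -/
def WPer (N : ℕ) (h : Fin m → E → ℝ) : Set (E × E) :=
  {x | ∃ (n : ℕ) (ι : ℕ → Fin m) (p u : ℕ → E), 1 ≤ n ∧ n ≤ N ∧ WTraj h n ι p u ∧ p 0 = x.1 ∧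
    u 0 = x.2 ∧ p n = x.1 ∧ u n = x.2}

theorem WPer_subset (N : ℕ) (h : Fin m → E → ℝ) : WPer N h ⊆ WTwice N h := by
  rintro x ⟨n, ι, p, u, hn, hN, H, hp, hu, hpn, hun⟩
  exact ⟨n, ι, p, u, hN, H, hp, hu, 0, n, hn, le_rfl, by rw [hpn, hp]⟩

/-- A periodic trajectory can be continued. -/
theorem WTraj.periodic {h : Fin m → E → ℝ} {n : ℕ} {ι : ℕ → Fin m} {p u : ℕ → E} (hn : 1 ≤ n)
    (H : WTraj h n ι p u) (hp : p n = p 0) (hu : u n = u 0) (N : ℕ) :
    WTraj h N (fun k => ι (k % n)) (fun k => p (k % n)) (fun k => u (k % n)) := by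
  have hι : ι n = ι 0 := by
    by_contra hne
    have h1 := (H.1 n le_rfl).1
    have h2 := (H.1 0 (Nat.zero_le _)).2.1 (ι n) hne
    rw [hp] at h1
    linarith
  refine ⟨fun k _ => H.1 _ (Nat.mod_lt _ (by omega)).le, fun k _ => ?_⟩
  have hk : k % n < n := Nat.mod_lt _ (by omega)
  have h2 := H.2 (k % n) hk
  rcases Nat.lt_or_ge (k % n + 1) n with h3 | h3
  · have e : (k + 1) % n = k % n + 1 := by
      rw [Nat.add_mod, Nat.mod_eq_of_lt (show 1 < n by omega), Nat.mod_eq_of_lt h3]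
    simp only [e]
    exact h2
  · have e0 : k % n + 1 = n := by omega
    have e : (k + 1) % n = 0 := by
      rw [← Nat.mod_add_mod, e0, Nat.mod_self]
    simp only [e]
    rw [e0, hp, hu, hι] at h2
    exact h2

theorem PerOnce_subset (h : Fin m → E → ℝ) : PerOnce h ⊆ ReturnWall h := by
  rintro x ⟨n, ι, p, u, hn, H, hp, hu, hpn, hun, a, ha, H1⟩
  refine ⟨2 * n, _, _, _, H.periodic hn (by rw [hpn, hp]) (by rw [hun, hu]) (2 * n), ?_, ?_,
    a, a + n, by omega, by omega, ?_, ?_⟩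
  · rw [Nat.zero_mod, hp]
  · rw [Nat.zero_mod, hu]
  · rw [Nat.add_mod_right]
  · intro k hak hkb
    rw [Nat.mod_eq_of_lt ha]
    refine H1 _ (Nat.mod_lt _ (by omega)) ?_
    rcases Nat.lt_or_ge k n with h1 | h1
    · rw [Nat.mod_eq_of_lt h1]; omega
    · obtain ⟨j, rfl⟩ : ∃ j, k = j + n := ⟨k - n, by omega⟩
      rw [Nat.add_mod_right, Nat.mod_eq_of_lt (by omega)]
      omega

end defs

variable {E S : Type} [NormedAddCommGroup E] [InnerProductSpace ℝ E] [FiniteDimensional ℝ E]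
  [NormedAddCommGroup S] [NormedSpace ℝ S] [FiniteDimensional ℝ S] {m : ℕ}

theorem D1_eq (HD : S_DER) {h : S → E → ℝ} (hh : ContDiff ℝ 2 (fun z : S × E => h z.1 z.2))
    {s c : S} {p : E} {δ : ℝ} (hδ : HasDerivAt (fun r : ℝ => h (s + r • c) p) δ 0) :
    D1 h s c p = δ := ((HD E S h hh).2.2.1 s c p).unique hδ

theorem D2_eq (HD : S_DER) {h : S → E → ℝ} (hh : ContDiff ℝ 2 (fun z : S × E => h z.1 z.2))
    {s c : S} {p : E} {δ : E} (hδ : HasDerivAt (fun r : ℝ => gradient (h (s + r • c)) p) δ 0) :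
    D2 h s c p = δ := ((HD E S h hh).2.2.2 s c p).unique hδ

/-- If the wall does not change at all. -/
theorem D_const (HD : S_DER) {h : S → E → ℝ} (hh : ContDiff ℝ 2 (fun z : S × E => h z.1 z.2))
    {s c : S} (hc : ∀ r : ℝ, h (s + r • c) = h s) (p : E) : D1 h s c p = 0 ∧ D2 h s c p = 0 := by
  refine ⟨D1_eq HD hh ?_, D2_eq HD hh ?_⟩
  · simp only [hc]
    exact hasDerivAt_const _ _
  · simp only [hc]
    exact hasDerivAt_const _ _

/-! ### Translations of the walls -/

/-- The walls `f i` in the position `s`. -/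
def trans (f : Fin m → E → ℝ) (i : Fin m) (s : Fin m → E) (x : E) : ℝ := f i (x - s i)

omit [FiniteDimensional ℝ E] in
theorem trans_contDiff {f : Fin m → E → ℝ} (hf : ∀ i, ContDiff ℝ 2 (f i)) (i : Fin m) :
    ContDiff ℝ 2 (fun z : (Fin m → E) × E => trans f i z.1 z.2) := by
  unfold trans
  refine (hf i).comp (contDiff_snd.sub ?_)
  exact (contDiff_apply ℝ E i).comp contDiff_fst

theorem ReturnWall_subset (HD : S_DER) {f : Fin m → E → ℝ} (hf : ∀ i, ContDiff ℝ 2 (f i))
    (s : Fin m → E) : ReturnWall (fun i => trans f i s) ⊆ Movable (trans f) s := by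
  classical
  rintro x ⟨n, ι, p, u, H, hp, hu, a, b, hab, hb, hret, hw⟩
  refine ⟨n, ι, p, u, H, hp, hu, a, b, hab, hb, hret, Pi.single (ι a)
    (gradient (f (ι a)) (p a - s (ι a))), ?_, ?_⟩
  · set q := p a - s (ι a) with hq
    have hfd : DifferentiableAt ℝ (f (ι a)) q := ((hf (ι a)).differentiable (by norm_num)) _
    have hg : gradient (f (ι a)) q ≠ 0 := by
      intro h0
      have h1 := (H.1 a (by omega)).2.2.2
      have h2 : gradient (trans f (ι a) s) (p a) = gradient (f (ι a)) q := by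
        refine ext_inner_left ℝ fun v => ?_
        rw [← fderiv_eq_inner, ← fderiv_eq_inner]
        have h3 : HasFDerivAt (trans f (ι a) s) (fderiv ℝ (f (ι a)) q) (p a) := by
          have h4 : HasFDerivAt (fun x : E => x - s (ι a)) (ContinuousLinearMap.id ℝ E) (p a) :=
            (hasFDerivAt_id _).sub_const _
          have h5 := hfd.hasFDerivAt.comp (p a) h4
          rw [ContinuousLinearMap.comp_id] at h5
          exact h5
        rw [h3.fderiv]
      rw [h2, h0, inner_zero_right] at h1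
      exact lt_irrefl _ h1
    have h1 : HasDerivAt (fun r : ℝ => trans f (ι a) (s + r • (Pi.single (ι a)
        (gradient (f (ι a)) q) : Fin m → E)) (p a)) (-(‖gradient (f (ι a)) q‖ ^ 2)) 0 := by
      have h2 : (fun r : ℝ => trans f (ι a) (s + r • (Pi.single (ι a)
          (gradient (f (ι a)) q) : Fin m → E)) (p a)) =
          fun r : ℝ => f (ι a) (q - r • gradient (f (ι a)) q) := by
        funext r
        simp only [trans, Pi.add_apply, Pi.smul_apply, Pi.single_eq_same]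
        rw [← sub_sub]
      rw [h2]
      have h3 : HasDerivAt (fun r : ℝ => q - r • gradient (f (ι a)) q)
          (-gradient (f (ι a)) q) 0 := by
        simpa using ((hasDerivAt_id (0 : ℝ)).smul_const (gradient (f (ι a)) q)).const_sub q
      have h4 : HasFDerivAt (f (ι a)) (fderiv ℝ (f (ι a)) q)
          (q - (0 : ℝ) • gradient (f (ι a)) q) := by
        rw [zero_smul, sub_zero]
        exact hfd.hasFDerivAt
      have h5 := h4.comp_hasDerivAt 0 h3
      rw [map_neg, fderiv_eq_inner, real_inner_self_eq_norm_sq] at h5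
      exact h5
    rw [D1_eq HD (trans_contDiff hf _) h1]
    have := norm_pos_iff.2 hg
    exact neg_ne_zero.2 (by positivity)
  · intro k hak hkb
    refine D_const HD (trans_contDiff hf _) (fun r => ?_) _
    funext x
    simp only [trans, Pi.add_apply, Pi.smul_apply, Pi.single_eq_of_ne (hw k hak hkb), smul_zero,
      add_zero]

/-! ### Linear families -/

theorem D_lin (HD : S_DER) {f : E → ℝ} (hf : ContDiff ℝ 2 f) (ev : S →ₗ[ℝ] (E → ℝ))
    (hev : ∀ s, ContDiff ℝ 2 (ev s)) (s c : S) (p : E) :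
    D1 (fun s x => f x + ev s x) s c p = ev c p ∧
      D2 (fun s x => f x + ev s x) s c p = gradient (ev c) p := by
  have hh : ContDiff ℝ 2 (fun z : S × E => f z.2 + ev z.1 z.2) :=
    (hf.comp contDiff_snd).add (ev_contDiff ev hev)
  have h1 : ∀ r : ℝ, ∀ x, f x + ev (s + r • c) x = (f x + ev s x) + r * ev c x := by
    intro r x
    rw [map_add, map_smul, Pi.add_apply, Pi.smul_apply, smul_eq_mul]
    ring
  refine ⟨D1_eq (h := fun s x => f x + ev s x) HD hh ?_,
    D2_eq (h := fun s x => f x + ev s x) HD hh ?_⟩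
  · simp only [h1]
    simpa using ((hasDerivAt_id (0 : ℝ)).mul_const (ev c p)).const_add (f p + ev s p)
  · have hd : Differentiable ℝ (fun x => f x + ev s x) :=
      (hf.differentiable (by norm_num)).add ((hev s).differentiable (by norm_num))
    have h2 : ∀ r : ℝ, gradient (fun x => f x + ev (s + r • c) x) p =
        gradient (fun x => f x + ev s x) p + r • gradient (ev c) p := by
      intro r
      have : (fun x => f x + ev (s + r • c) x) = fun x => (f x + ev s x) + r * ev c x := by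
        funext x; exact h1 r x
      rw [this, gradient_add_smul hd ((hev c).differentiable (by norm_num))]
    simp only [h2]
    simpa using ((hasDerivAt_id (0 : ℝ)).smul_const (gradient (ev c) p)).const_add
      (gradient (fun x => f x + ev s x) p)

/-- The functions `F b` separate the points from the `1`-jets at `K` other points. -/
def Sep1 (K : ℕ) {B : Type} (F : B → E → ℝ) : Prop :=
  ∀ (A : Finset E) (q : E), A.card ≤ K → q ∉ A →
    ∃ b : B, 0 < F b q ∧ ∀ a ∈ A, F b a = 0 ∧ gradient (F b) a = 0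

omit [FiniteDimensional ℝ S] [NormedSpace ℝ S] [NormedAddCommGroup S] in
theorem WTwice_subset {N : ℕ} {B : Type} {F : B → E → ℝ} (hF : Sep1 (N - 1) F)
    (h : Fin m → E → ℝ) {x : E × E} (hx : x ∈ WTwice N h) :
    ∃ (n : ℕ) (ι : ℕ → Fin m) (p u : ℕ → E), WTraj h n ι p u ∧
      p 0 = x.1 ∧ u 0 = x.2 ∧ ∃ a b : ℕ, a < b ∧ b ≤ n ∧ p b = p a ∧
        ∃ c : B, 0 < F c (p a) ∧
          ∀ k, a < k → k < b → F c (p k) = 0 ∧ gradient (F c) (p k) = 0 := by
  classical
  obtain ⟨n, ι, p, u, hN, H, hp, hu, a, b₀, hab₀, hb₀, hret₀⟩ := hx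
  have hex : ∃ b, a < b ∧ p b = p a := ⟨b₀, hab₀, hret₀⟩
  set b := Nat.find hex with hbdef
  obtain ⟨hab, hret⟩ := Nat.find_spec hex
  rw [← hbdef] at hab hret
  have hbb₀ : b ≤ b₀ := Nat.find_min' hex ⟨hab₀, hret₀⟩
  have hmin : ∀ k, a < k → k < b → p k ≠ p a := fun k hk hkb h0 => Nat.find_min hex hkb ⟨hk, h0⟩
  obtain ⟨c, hc2, hc3⟩ := hF ((Finset.Ioo a b).image p) (p a) (by
    refine Finset.card_image_le.trans ?_
    rw [Nat.card_Ioo]
    omega) (by
    intro hmem
    obtain ⟨k, hk, hk0⟩ := Finset.mem_image.1 hmem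
    rw [Finset.mem_Ioo] at hk
    exact hmin k hk.1 hk.2 hk0)
  exact ⟨n, ι, p, u, H, hp, hu, a, b, hab, hbb₀.trans hb₀, hret, c, hc2, fun k hak hkb =>
    hc3 _ (Finset.mem_image.2 ⟨k, Finset.mem_Ioo.2 ⟨hak, hkb⟩, rfl⟩)⟩

section meas
variable [MeasurableSpace E] [BorelSpace E]

/-- Almost every member of a finite dimensional family. -/
theorem ae_fam (HC : S_CORE3) (HK : S_CLOSED3) (HD : S_DER) (HL : S_LOOP3) (HPr : S_PROD)
    [MeasurableSpace S] [BorelSpace S] (μ : Measure S) [μ.IsAddHaarMeasure] {d : ℕ} (hd : 2 ≤ d)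
    (hE : Module.finrank ℝ E = d) {f : Fin m → E → ℝ} (hf : ∀ i, ContDiff ℝ 2 (f i))
    (ev : S →ₗ[ℝ] (E → ℝ)) (hev : ∀ s, ContDiff ℝ 2 (ev s)) {N : ℕ}
    (hsep : Sep1 (N - 1) (fun s => ev s)) :
    ∀ᵐ s ∂μ, μH[((2 * d - 2 : ℕ) : ℝ)] (WTwice N fun i x => f i x + ev s x) = 0 := by
  have hh : ∀ i, ContDiff ℝ 2 (fun z : S × E => f i z.2 + ev z.1 z.2) := fun i =>
    ((hf i).comp contDiff_snd).add (ev_contDiff ev hev)
  filter_upwards [ae_Movable HC HK HD HL HPr μ hd hE (h := fun i s x => f i x + ev s x) hh]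
    with s hs
  refine measure_mono_null ?_ hs
  intro x hx
  obtain ⟨n, ι, p, u, H, hp, hu, a, b, hab, hbn, hret, c, hc1, hc2⟩ := WTwice_subset hsep _ hx
  refine ⟨n, ι, p, u, H, hp, hu, a, b, hab, hbn, hret, c, ?_, fun k hak hkb => ?_⟩
  · rw [(D_lin HD (hf _) ev hev s c _).1]
    exact hc1.ne'
  · rw [(D_lin HD (hf _) ev hev s c _).1, (D_lin HD (hf _) ev hev s c _).2]
    exact hc2 k hak hkb

omit [MeasurableSpace E] [BorelSpace E] in
/-- For a fixed line the parameters with a loop are a null set. -/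
theorem null_slice3 (HC : S_CORE3) (HD : S_DER) [MeasurableSpace S] [BorelSpace S]
    (μ : Measure S) [μ.IsAddHaarMeasure] {f : Fin m → E → ℝ} (hf : ∀ i, ContDiff ℝ 2 (f i))
    (ev : S →ₗ[ℝ] (E → ℝ)) (hev : ∀ s, ContDiff ℝ 2 (ev s)) {e : E} (he : ‖e‖ = 1) {n : ℕ}
    (hn : 1 ≤ n) (ι : ℕ → Fin m) {c M : ℝ} (hc : 0 < c) (z : (ℝ ∙ e)ᗮ × (ℝ ∙ e)ᗮ) :
    μ {s | z ∈ Lines3 (fun i x => f i x + ev s x) (fun _ b => ev b)
      (fun _ b => gradient (ev b)) e n ι c M} = 0 := by
  have hh : ∀ i, ContDiff ℝ 2 (fun z : S × E => f i z.2 + ev z.1 z.2) := fun i =>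
    ((hf i).comp contDiff_snd).add (ev_contDiff ev hev)
  have hew := add_ne_zero_of_mem he z.2
  have h1 := HC E S μ (fun k s x => f (ι k) x + ev s x) (fun k => hh (ι k)) (z.1 : E)
    (‖e + (z.2 : E)‖⁻¹ • (e + (z.2 : E))) n hn (by
      rw [norm_smul, norm_inv, norm_norm, inv_mul_cancel₀ (norm_ne_zero_iff.2 hew)])
  refine measure_mono_null ?_ h1
  rintro s ⟨a, p, u, τ, b, H⟩
  have H' : Loop3 (fun i => (fun i s x => f i x + ev s x) i s)
      (fun i => gradient ((fun i s x => f i x + ev s x) i s))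
      (fun i b x => D1 ((fun i s x => f i x + ev s x) i) s b x)
      (fun i b x => D2 ((fun i s x => f i x + ev s x) i) s b x) e (z.1 : E) (z.2 : E) n ι c M
      a p u τ b := by
    have e1 : (fun (i : Fin m) (b : S) (x : E) => D1 ((fun i s x => f i x + ev s x) i) s b x) =
        fun _ b => ev b := by
      funext i b x
      exact (D_lin HD (hf i) ev hev s b x).1
    have e2 : (fun (i : Fin m) (b : S) (x : E) => D2 ((fun i s x => f i x + ev s x) i) s b x) =
        fun _ b => gradient (ev b) := by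
      funext i b x
      exact (D_lin HD (hf i) ev hev s b x).2
    rw [e1, e2]
    exact H
  exact ⟨_, p, u, τ, good3_of_loop (h := fun i s x => f i x + ev s x) hew hn hc H'⟩

/-- Almost every member of an infinite dimensional family: the lines with loops. -/
theorem ae_Lines3Seq (HC : S_CORE3) (HK : S_CLOSED3) (HD : S_DER) (HR : S_RESAMP)
    (HSe : S_SERIES) {d : ℕ} (hE : Module.finrank ℝ E = d) {f : Fin m → E → ℝ}
    (hf : ∀ i, ContDiff ℝ 2 (f i)) {g : ℕ → E → ℝ} (hg : ∀ j, ContDiff ℝ 2 (g j))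
    (hsum : ∀ R : ℝ, ∃ v : ℕ → ℝ, Summable v ∧ ∀ j : ℕ, ∀ k ≤ 2, ∀ x, ‖x‖ ≤ R →
      ‖iteratedFDeriv ℝ k (g j) x‖ ≤ v j) (J : ℕ) {e : E} (he : ‖e‖ = 1) {n : ℕ} (hn : 1 ≤ n)
    (ι : ℕ → Fin m) {c M : ℝ} (hc : 0 < c) :
    ∀ᵐ t ∂(Measure.infinitePi (fun _ : ℕ => (volume : Measure unitInterval))),
      μH[((2 * d - 2 : ℕ) : ℝ)] (Lines3 (fun i => pert (f i) g t) (fun _ b => comb g J b)
        (fun _ b => gradient (comb g J b)) e n ι c M) = 0 := by
  have hH := haar_lines hE he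
  have h2 := ev_contDiff (comb g J) (comb_contDiff hg J)
  have h5 : Continuous fun z : (Fin J → ℝ) × E => gradient (comb g J z.1) z.2 :=
    (contDiff_grad2 (h := fun b x => comb g J b x) h2).continuous
  have hcl := HK E (Fin J → ℝ) (ℕ → unitInterval) m (fun t i => pert (f i) g t)
    (fun t i => gradient (pert (f i) g t)) (fun _ _ b x => comb g J b x)
    (fun _ _ b x => gradient (comb g J b) x) (fun i => (HSe E g hg hsum (f i) (hf i)).2.1)
    (fun i => (HSe E g hg hsum (f i) (hf i)).2.2.1)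
    (fun i => h2.continuous.comp continuous_snd) (fun i => h5.comp continuous_snd) e n ι c M hc
  have hm := hcl.measurableSet
  have hsf : SFinite (μH[((2 * d - 2 : ℕ) : ℝ)] : Measure ((ℝ ∙ e)ᗮ × (ℝ ∙ e)ᗮ)) :=
    inferInstance
  have hall : ∀ z : (ℝ ∙ e)ᗮ × (ℝ ∙ e)ᗮ,
      Measure.infinitePi (fun _ : ℕ => (volume : Measure unitInterval)) {t | (t, z) ∈ LoopSet3
        (fun t i => pert (f i) g t) (fun t i => gradient (pert (f i) g t))
        (fun _ _ b x => comb g J b x) (fun _ _ b x => gradient (comb g J b) x) e n ι c M} = 0 := by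
    intro z
    refine HR J _ ?_ ?_
    · have h1 : Continuous fun t : ℕ → unitInterval => (t, z) := by fun_prop
      exact (hcl.preimage h1).measurableSet
    · intro t
      set base : Fin m → E → ℝ := fun i x => pert (f i) g t x +
        comb g J (fun i => -(t i : ℝ)) x with hbase
      have hb : ∀ i, ContDiff ℝ 2 (base i) := fun i =>
        ((HSe E g hg hsum (f i) (hf i)).1 t).add (comb_contDiff hg J _)
      have h9 := null_slice3 HC HD (volume : Measure (Fin J → ℝ)) hb (comb g J)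
        (comb_contDiff hg J) he hn ι (M := M) hc z
      refine measure_mono_null ?_ h9
      rintro x ⟨s, hs, a, p, u, τ, b, H⟩
      refine ⟨a, p, u, τ, b, ?_⟩
      have h3 : ∀ i, pert (f i) g (repl J t s) = fun x' => base i x' + comb g J x x' := by
        intro i
        funext x'
        rw [(HSe E g hg hsum (f i) (hf i)).2.2.2]
        simp only [hbase, comb, LinearMap.coe_mk, AddHom.coe_mk, add_assoc]
        rw [← Finset.sum_add_distrib]
        congr 1
        refine Finset.sum_congr rfl fun i _ => ?_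
        rw [hs i]
        ring
      simp only [h3] at H
      exact H
  have hfin := swap_null (Measure.infinitePi (fun _ : ℕ => (volume : Measure unitInterval)))
    (μH[((2 * d - 2 : ℕ) : ℝ)] : Measure ((ℝ ∙ e)ᗮ × (ℝ ∙ e)ᗮ)) hm hall
  filter_upwards [hfin] with s hs
  exact hs

/-- Almost every member of an infinite dimensional family. -/
theorem ae_seq (HC : S_CORE3) (HK : S_CLOSED3) (HD : S_DER) (HL : S_LOOP3) (HPr : S_PROD)
    (HR : S_RESAMP) (HSe : S_SERIES) {d : ℕ} (hd : 2 ≤ d) (hE : Module.finrank ℝ E = d)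
    {f : Fin m → E → ℝ} (hf : ∀ i, ContDiff ℝ 2 (f i)) {g : ℕ → E → ℝ}
    (hg : ∀ j, ContDiff ℝ 2 (g j))
    (hsum : ∀ R : ℝ, ∃ v : ℕ → ℝ, Summable v ∧ ∀ j : ℕ, ∀ k ≤ 2, ∀ x, ‖x‖ ≤ R →
      ‖iteratedFDeriv ℝ k (g j) x‖ ≤ v j)
    (hsep : ∀ K : ℕ, Sep1 K fun (b : Σ J : ℕ, Fin J → ℝ) x => ∑ i, b.2 i * g i x) :
    ∀ᵐ t ∂(Measure.infinitePi (fun _ : ℕ => (volume : Measure unitInterval))), ∀ N : ℕ,
      μH[((2 * d - 2 : ℕ) : ℝ)] (WTwice N fun i => pert (f i) g t) = 0 := by
  have hall : ∀ᵐ t ∂(Measure.infinitePi (fun _ : ℕ => (volume : Measure unitInterval))),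
      ∀ (J : ℕ) (z : (Σ n : ℕ, Fin (n + 1) → Fin m) × ℕ ×
      (Fin (Module.finrank ℝ E) × Bool)), 1 ≤ z.1.1 →
      μH[((2 * d - 2 : ℕ) : ℝ)] (Lines3 (fun i => pert (f i) g t) (fun _ b => comb g J b)
        (fun _ b => gradient (comb g J b)) (dirs E z.2.2) z.1.1 (extn z.1.2)
        (1 / ((z.2.1 : ℝ) + 1)) ((z.2.1 : ℝ) + 1)) = 0 := by
    rw [ae_all_iff]
    intro J
    rw [ae_all_iff]
    intro z
    by_cases hz : 1 ≤ z.1.1
    · filter_upwards [ae_Lines3Seq HC HK HD HR HSe hE hf hg hsum J (dirs_norm z.2.2) hz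
        (extn z.1.2) (c := 1 / ((z.2.1 : ℝ) + 1)) (M := (z.2.1 : ℝ) + 1) (by positivity)]
        with s hs _
      exact hs
    · exact Eventually.of_forall fun s h => absurd h hz
  filter_upwards [hall] with t hall N
  have hh : ∀ i, ContDiff ℝ 2 (pert (f i) g t) := fun i => (HSe E g hg hsum (f i) (hf i)).1 t
  have hnull : ∀ J, μH[((2 * d - 2 : ℕ) : ℝ)] (MovG (fun i => pert (f i) g t)
      (fun _ (b : Fin J → ℝ) => comb g J b) (fun _ b => gradient (comb g J b))) = 0 := by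
    intro J
    refine null_MovG HL HPr hd hE hh (fun i c x => ?_) (fun i c x => ?_) (hall J)
    · rw [map_neg]; rfl
    · rw [map_neg]
      have h1 := gradient_add_smul (h := fun _ => (0 : ℝ)) (g := comb g J c)
        (differentiable_const 0) ((comb_contDiff hg J c).differentiable (by norm_num)) (-1) x
      have h2 : (fun x => (0 : ℝ) + -1 * comb g J c x) = -comb g J c := by
        funext x
        simp
      have h3 : gradient (fun _ : E => (0 : ℝ)) x = 0 := gradient_fun_const _ _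
      rw [h2, h3] at h1
      rw [h1]
      simp
  refine measure_mono_null ?_ (measure_iUnion_null hnull)
  intro x hx
  obtain ⟨n, ι, p, u, H, hp, hu, a, b, hab, hbn, hret, ⟨J, c⟩, hc1, hc2⟩ :=
    WTwice_subset (hsep (N - 1)) _ hx
  exact mem_iUnion.2 ⟨J, n, ι, p, u, H, hp, hu, a, b, hab, hbn, hret, c, hc1.ne',
    fun k hak hkb => hc2 k hak hkb⟩

end meas

end Q263.IW
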