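import Pool.Agent.Q263.IW.Def

/-!
# Paths which return to their first point, several walls: the parameters are a null set

The proof of `Q263.IV.core` with bounce number `k` at the wall `h k`, and with a condition of first
order on the direction of the parameter space.
-/

set_option autoImplicit false

open Set MeasureTheory Function Filter Topology

namespace Q263.IW

open Pool.Agent.Y322.IV Q263.IV

section
variable {E S : Type} [NormedAddCommGroup E] [InnerProductSpace ℝ E] [FiniteDimensional ℝ E]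
  [NormedAddCommGroup S] [NormedSpace ℝ S] [FiniteDimensional ℝ S]

/-- The reflection. -/
noncomputable def rf (z : E × E) : E := z.1 - (2 * inner ℝ z.1 z.2 / ‖z.2‖ ^ 2) • z.2

omit [FiniteDimensional ℝ E] in
theorem contDiffAt_rf {z : E × E} (hz : z.2 ≠ 0) : ContDiffAt ℝ 1 rf z := by
  unfold rf
  have h5 : ‖z.2‖ ^ 2 ≠ 0 := by positivity
  refine contDiffAt_fst.sub (ContDiffAt.smul (ContDiffAt.div ?_ ?_ h5) contDiffAt_snd)
  · exact contDiffAt_const.mul (contDiffAt_fst.inner ℝ contDiffAt_snd)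
  · exact contDiffAt_snd.norm_sq ℝ

/-- The path with the lengths `w`, for the functions `h k s`. -/
noncomputable def PU3 {m : ℕ} (h : ℕ → S → E → ℝ) (y v : E) (z : S × (Fin m → ℝ)) : ℕ → E × E
  | 0 => (y, v)
  | k + 1 => ((PU3 h y v z k).1 + ww z.2 k • (PU3 h y v z k).2,
      rf ((PU3 h y v z k).2,
        gradient (h (k + 1) z.1) ((PU3 h y v z k).1 + ww z.2 k • (PU3 h y v z k).2)))

/-! ### The path of a good path -/

omit [FiniteDimensional ℝ S] in
theorem pu3 {h : ℕ → S → E → ℝ} {s : S} {y v : E} {m : ℕ} {a : ℝ}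
    {p u : ℕ → E} {τ : ℕ → ℝ} (H : GoodPath3 h s y v (m + 1) a p u τ) (w : Fin m → ℝ)
    (hw : ∀ k : Fin m, w k = if (k : ℕ) = 0 then a + τ 0 else τ k) :
    ∀ k < m, (PU3 h y v (s, w) (k + 1)) = (p (k + 1), u (k + 1)) := by
  have key : ∀ k < m, (PU3 h y v (s, w) k).1 + ww w k • (PU3 h y v (s, w) k).2 = p (k + 1) →
      (PU3 h y v (s, w) k).2 = u k → (PU3 h y v (s, w) (k + 1)) = (p (k + 1), u (k + 1)) := by
    intro k hk h1 h2
    simp only [PU3]
    rw [h1, h2, H.refl k (by omega)]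
    rfl
  intro k
  induction k with
  | zero =>
    intro hk
    refine key 0 hk ?_ ?_
    · simp only [PU3, ww, dif_pos hk]
      rw [hw ⟨0, hk⟩, if_pos rfl, H.move 0 (by omega), H.start, H.dir, add_smul, add_assoc]
    · simp only [PU3]
      rw [H.dir]
  | succ k ih =>
    intro hk
    have h1 := ih (by omega)
    refine key (k + 1) hk ?_ ?_
    · rw [h1]
      simp only [ww, dif_pos hk]
      rw [hw ⟨k + 1, hk⟩, if_neg (by simp), H.move (k + 1) (by omega)]
    · rw [h1]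

omit [FiniteDimensional ℝ S] in
/-- The last line goes through the last point. -/
theorem last3 {h : ℕ → S → E → ℝ} {s : S} {y v : E} {m : ℕ} {a : ℝ}
    {p u : ℕ → E} {τ : ℕ → ℝ} (H : GoodPath3 h s y v (m + 1) a p u τ) (w : Fin m → ℝ)
    (hw : ∀ k : Fin m, w k = if (k : ℕ) = 0 then a + τ 0 else τ k) :
    (PU3 h y v (s, w) m).2 = u m ∧ ∃ t : ℝ, p (m + 1) = (PU3 h y v (s, w) m).1 + t • u m := by
  rcases Nat.eq_zero_or_pos m with rfl | hm
  · refine ⟨H.dir.symm, a + τ 0, ?_⟩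
    simp only [PU3]
    rw [H.move 0 (by omega), H.start, H.dir, add_smul, add_assoc]
  · have h1 := pu3 H w hw (m - 1) (by omega)
    have e : m - 1 + 1 = m := by omega
    rw [e] at h1
    rw [h1]
    exact ⟨rfl, τ m, H.move m (by omega)⟩

/-- The equations of the paths. -/
noncomputable def Th3 (h : ℕ → S → E → ℝ) (y v : E) {m : ℕ} (z : S × (Fin m → ℝ)) :
    (Fin m → ℝ) × ℝ :=
  (fun k => h (k + 1) z.1 (PU3 h y v z (k + 1)).1,
    h 0 z.1 (cross y v (PU3 h y v z m).1 (PU3 h y v z m).2))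

omit [FiniteDimensional ℝ S] in
theorem cross3 {h : ℕ → S → E → ℝ} {s : S} {y v : E} {m : ℕ} {a : ℝ}
    {p u : ℕ → E} {τ : ℕ → ℝ} (H : GoodPath3 h s y v (m + 1) a p u τ) (hv : ‖v‖ = 1)
    (w : Fin m → ℝ) (hw : ∀ k : Fin m, w k = if (k : ℕ) = 0 then a + τ 0 else τ k) :
    (‖(PU3 h y v (s, w) m).2‖ = 1 ∧ (PU3 h y v (s, w) m).2 ≠ v ∧
      (PU3 h y v (s, w) m).2 ≠ -v) ∧
    cross y v (PU3 h y v (s, w) m).1 (PU3 h y v (s, w) m).2 = p 0 := by
  obtain ⟨h1, t, h2⟩ := last3 H w hw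
  have hn : m + 1 - 1 = m := by omega
  have hu : ‖u m‖ = 1 := H.unit m (by omega)
  have e1 := H.non1
  have e2 := H.non2
  rw [hn] at e1 e2
  have a1 : ‖(PU3 h y v (s, w) m).2‖ = 1 := by rw [h1, hu]
  have a2 : (PU3 h y v (s, w) m).2 ≠ v := by
    rw [h1, ← H.dir]; exact e1
  have a3 : (PU3 h y v (s, w) m).2 ≠ -v := by
    rw [h1, ← H.dir]; exact e2
  refine ⟨⟨a1, a2, a3⟩, ?_⟩
  have h3 : y + a • v = (PU3 h y v (s, w) m).1 + t • (PU3 h y v (s, w) m).2 := by
    rw [← H.start, ← H.ret, h2, h1]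
  rw [cross_eq hv a1 a2 a3 h3, H.start]

omit [FiniteDimensional ℝ S] in
theorem th3 {h : ℕ → S → E → ℝ} {s : S} {y v : E} {m : ℕ} {a : ℝ}
    {p u : ℕ → E} {τ : ℕ → ℝ} (H : GoodPath3 h s y v (m + 1) a p u τ) (hv : ‖v‖ = 1)
    (w : Fin m → ℝ) (hw : ∀ k : Fin m, w k = if (k : ℕ) = 0 then a + τ 0 else τ k) :
    Th3 h y v (s, w) = 0 := by
  refine Prod.ext (funext fun k => ?_) ?_
  · show h (k + 1) s (PU3 h y v (s, w) (k + 1)).1 = 0
    rw [pu3 H w hw k k.2]
    exact H.zero _ (by omega)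
  · show h 0 s (cross y v (PU3 h y v (s, w) m).1 (PU3 h y v (s, w) m).2) = 0
    rw [(cross3 H hv w hw).2]
    exact H.zero 0 (by omega)

omit [FiniteDimensional ℝ S] in
/-- Differentiability of the path. -/
theorem contDiffAt_PU3 {h : ℕ → S → E → ℝ} (hh : ∀ k, ContDiff ℝ 2 (fun z : S × E => h k z.1 z.2))
    (y v : E) {m : ℕ} (z : S × (Fin m → ℝ)) :
    ∀ k, (∀ j < k, gradient (h (j + 1) z.1) (PU3 h y v z (j + 1)).1 ≠ 0) →
      ContDiffAt ℝ 1 (fun z => PU3 h y v z k) z := by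
  intro k
  induction k with
  | zero => intro _; exact contDiffAt_const
  | succ k ih =>
    intro hg
    have h1 := ih fun j hj => hg j (by omega)
    have h2 : ContDiffAt ℝ 1 (fun z : S × (Fin m → ℝ) => ww z.2 k) z := by
      unfold ww
      split_ifs with hk
      · exact ((contDiff_apply ℝ ℝ (⟨k, hk⟩ : Fin m)).comp contDiff_snd).contDiffAt
      · exact contDiffAt_const
    have h3 : ContDiffAt ℝ 1 (fun z => (PU3 h y v z k).1 + ww z.2 k • (PU3 h y v z k).2) z :=
      h1.fst.add (h2.smul h1.snd)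
    have h4 : ContDiffAt ℝ 1 (fun z : S × (Fin m → ℝ) => gradient (h (k + 1) z.1)
        ((PU3 h y v z k).1 + ww z.2 k • (PU3 h y v z k).2)) z := by
      have := (contDiff_grad2 (hh (k + 1))).contDiffAt (x := (z.1, (PU3 h y v z k).1 + ww z.2 k •
        (PU3 h y v z k).2))
      exact ContDiffAt.comp (g := fun z : S × E => gradient (h (k + 1) z.1) z.2)
        (f := fun z : S × (Fin m → ℝ) => (z.1, (PU3 h y v z k).1 + ww z.2 k • (PU3 h y v z k).2)) z
        this (contDiffAt_fst.prodMk h3)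
    have h5 : gradient (h (k + 1) z.1) ((PU3 h y v z k).1 + ww z.2 k • (PU3 h y v z k).2) ≠ 0 :=
      hg k (by omega)
    refine h3.prodMk ?_
    exact ContDiffAt.comp (g := rf) (f := fun z : S × (Fin m → ℝ) => ((PU3 h y v z k).2,
      gradient (h (k + 1) z.1) ((PU3 h y v z k).1 + ww z.2 k • (PU3 h y v z k).2))) z
      (contDiffAt_rf h5) (h1.snd.prodMk h4)

omit [FiniteDimensional ℝ E] in
theorem contDiffAt_cross (y v : E) {X Y : E} (hc : 1 - inner ℝ v Y ^ 2 ≠ (0 : ℝ)) :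
    ContDiffAt ℝ 1 (fun z : E × E => cross y v z.1 z.2) (X, Y) := by
  unfold cross
  refine contDiffAt_const.add (ContDiffAt.smul (ContDiffAt.div ?_ ?_ hc) contDiffAt_const)
  · exact (contDiffAt_fst.sub contDiffAt_const).inner ℝ
      (contDiffAt_const.sub ((contDiffAt_const.inner ℝ contDiffAt_snd).smul contDiffAt_snd))
  · exact contDiffAt_const.sub ((contDiffAt_const.inner ℝ contDiffAt_snd).pow 2)

omit [FiniteDimensional ℝ S] in
theorem contDiffAt_Th3 {h : ℕ → S → E → ℝ} (hh : ∀ k, ContDiff ℝ 2 (fun z : S × E => h k z.1 z.2))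
    (y v : E) {m : ℕ} (z : S × (Fin m → ℝ))
    (hg : ∀ j < m, gradient (h (j + 1) z.1) (PU3 h y v z (j + 1)).1 ≠ 0)
    (hc : 1 - inner ℝ v (PU3 h y v z m).2 ^ 2 ≠ (0 : ℝ)) :
    ContDiffAt ℝ 1 (Th3 h y v) z := by
  have hh1 : ∀ k, ContDiff ℝ 1 (fun z : S × E => h k z.1 z.2) := fun k =>
    (hh k).of_le (by norm_num)
  have hP : ∀ k ≤ m, ContDiffAt ℝ 1 (fun z => PU3 h y v z k) z := fun k hk =>
    contDiffAt_PU3 hh y v z k fun j hj => hg j (by omega)
  unfold Th3
  refine ContDiffAt.prodMk ?_ ?_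
  · refine contDiffAt_pi.2 fun k => ?_
    exact (hh1 _).contDiffAt.comp z (contDiffAt_fst.prodMk (hP (k + 1) (by omega)).fst)
  · refine (hh1 0).contDiffAt.comp z (contDiffAt_fst.prodMk ?_)
    exact ContDiffAt.comp (g := fun z : E × E => cross y v z.1 z.2)
      (f := fun z : S × (Fin m → ℝ) => PU3 h y v z m) z (contDiffAt_cross y v hc) (hP m le_rfl)

omit [NormedAddCommGroup S] [NormedSpace ℝ S] [FiniteDimensional ℝ S] in
/-- The path does not change before the length number `j` if only this length is changed. -/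
theorem PU3_eq_of_len {h : ℕ → S → E → ℝ} {s : S} {y v : E} {m : ℕ} (w w' : Fin m → ℝ) (j : ℕ)
    (hw : ∀ k : Fin m, (k : ℕ) < j → w' k = w k) :
    ∀ k ≤ j, PU3 h y v (s, w') k = PU3 h y v (s, w) k := by
  intro k
  induction k with
  | zero => intro _; rfl
  | succ k ih =>
    intro hk
    have h1 := ih (by omega)
    have h2 : ww w' k = ww w k := by
      unfold ww
      split_ifs with h3
      · exact hw ⟨k, h3⟩ (by simp only; omega)
      · rfl
    simp only [PU3]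
    rw [h1, h2]

omit [FiniteDimensional ℝ S] in
theorem vel3 {h : ℕ → S → E → ℝ} {s : S} {y v : E} {m : ℕ} {a : ℝ}
    {p u : ℕ → E} {τ : ℕ → ℝ} (H : GoodPath3 h s y v (m + 1) a p u τ) (w : Fin m → ℝ)
    (hw : ∀ k : Fin m, w k = if (k : ℕ) = 0 then a + τ 0 else τ k) {j : ℕ} (hj : j < m) :
    (PU3 h y v (s, w) j).2 = u j ∧ (PU3 h y v (s, w) j).1 + ww w j • u j = p (j + 1) := by
  have h1 : (PU3 h y v (s, w) j).2 = u j := by
    rcases Nat.eq_zero_or_pos j with rfl | h0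
    · exact H.dir.symm
    · have h2 := pu3 H w hw (j - 1) (by omega)
      have e : j - 1 + 1 = j := by omega
      rw [e] at h2
      rw [h2]
  refine ⟨h1, ?_⟩
  have h2 := pu3 H w hw j hj
  have h3 : (PU3 h y v (s, w) (j + 1)).1 = (PU3 h y v (s, w) j).1 + ww w j •
      (PU3 h y v (s, w) j).2 := rfl
  rw [h1] at h3
  rw [← h3, h2]

omit [FiniteDimensional ℝ E] [FiniteDimensional ℝ S] in
/-- Chain rule along a direction `c` of the parameter space, the second variable being stationary. -/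
theorem hasDerivAt_joint {W : Type} [NormedAddCommGroup W] [NormedSpace ℝ W] {F : S × E → W}
    {s c : S} {x : E} (hF : DifferentiableAt ℝ F (s, x)) {X : ℝ → E} (hX : HasDerivAt X 0 0)
    (hX0 : X 0 = x) {δ : W} (hδ : HasDerivAt (fun ε : ℝ => F (s + ε • c, x)) δ 0) :
    HasDerivAt (fun ε : ℝ => F (s + ε • c, X ε)) δ 0 := by
  have h1 : HasDerivAt (fun ε : ℝ => s + ε • c) c 0 := by
    simpa using ((hasDerivAt_id (0 : ℝ)).smul_const c).const_add s
  have h2 : HasFDerivAt F (fderiv ℝ F (s, x)) (s, x) := hF.hasFDerivAt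
  have e1 : (s + (0 : ℝ) • c, x) = (s, x) := by rw [zero_smul, add_zero]
  have e2 : (s + (0 : ℝ) • c, X 0) = (s, x) := by rw [zero_smul, add_zero, hX0]
  have h3 : HasDerivAt (fun ε : ℝ => F (s + ε • c, x)) (fderiv ℝ F (s, x) (c, 0)) 0 :=
    HasFDerivAt.comp_hasDerivAt (f := fun ε : ℝ => (s + ε • c, x)) 0 (by rw [e1]; exact h2)
      (h1.prodMk (hasDerivAt_const (0 : ℝ) x))
  have h4 : HasDerivAt (fun ε : ℝ => F (s + ε • c, X ε)) (fderiv ℝ F (s, x) (c, 0)) 0 :=
    HasFDerivAt.comp_hasDerivAt (f := fun ε : ℝ => (s + ε • c, X ε)) 0 (by rw [e2]; exact h2)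
      (h1.prodMk hX)
  rw [hδ.unique h3]
  exact h4

/-- The path is stationary in the direction `c`. -/
theorem PU3_stat (HD : S_DER) {h : ℕ → S → E → ℝ}
    (hh : ∀ k, ContDiff ℝ 2 (fun z : S × E => h k z.1 z.2)) {s c : S} {y v : E} {m : ℕ}
    (w : Fin m → ℝ)
    (hg : ∀ k < m, gradient (h (k + 1) s) (PU3 h y v (s, w) (k + 1)).1 ≠ 0)
    (hs : ∀ k < m, D2 (h (k + 1)) s c (PU3 h y v (s, w) (k + 1)).1 = 0) :
    ∀ k ≤ m, HasDerivAt (fun ε : ℝ => PU3 h y v (s + ε • c, w) k) 0 0 := by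
  intro k
  induction k with
  | zero => intro _; exact hasDerivAt_const _ _
  | succ k ih =>
    intro hk
    have h1 := ih (by omega)
    have h1a : HasDerivAt (fun ε : ℝ => (PU3 h y v (s + ε • c, w) k).1) 0 0 := h1.fst
    have h1b : HasDerivAt (fun ε : ℝ => (PU3 h y v (s + ε • c, w) k).2) 0 0 := h1.snd
    have h2 : HasDerivAt (fun ε : ℝ => (PU3 h y v (s + ε • c, w) (k + 1)).1) 0 0 := by
      have := h1a.add (h1b.const_smul (ww w k))
      rw [smul_zero, add_zero] at this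
      exact this
    have h3 : HasDerivAt (fun ε : ℝ => gradient (h (k + 1) (s + ε • c))
        (PU3 h y v (s + ε • c, w) (k + 1)).1) 0 0 := by
      refine hasDerivAt_joint (F := fun z : S × E => gradient (h (k + 1) z.1) z.2)
        (x := (PU3 h y v (s, w) (k + 1)).1) ?_ h2 (by rw [zero_smul, add_zero]) ?_
      · exact ((contDiff_grad2 (hh (k + 1))).differentiable (by norm_num)) _
      · have := (HD E S (h (k + 1)) (hh (k + 1))).2.2.2 s c (PU3 h y v (s, w) (k + 1)).1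
        rw [hs k (by omega)] at this
        exact this
    have h4 : HasDerivAt (fun ε : ℝ => rf ((PU3 h y v (s + ε • c, w) k).2,
        gradient (h (k + 1) (s + ε • c)) (PU3 h y v (s + ε • c, w) (k + 1)).1)) 0 0 := by
      have h5 : DifferentiableAt ℝ rf ((PU3 h y v (s + (0 : ℝ) • c, w) k).2,
          gradient (h (k + 1) (s + (0 : ℝ) • c)) (PU3 h y v (s + (0 : ℝ) • c, w) (k + 1)).1) := by
        refine (contDiffAt_rf ?_).differentiableAt one_ne_zero
        rw [zero_smul, add_zero]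
        exact hg k (by omega)
      have h6 := h5.hasFDerivAt.comp_hasDerivAt (0 : ℝ) (h1b.prodMk h3)
      have h7 : ((0 : E), (0 : E)) = 0 := rfl
      rw [h7, map_zero] at h6
      exact h6
    exact h2.prodMk h4

theorem surj3 (HD : S_DER) {h : ℕ → S → E → ℝ}
    (hh : ∀ k, ContDiff ℝ 2 (fun z : S × E => h k z.1 z.2)) {s : S}
    {y v : E} {m : ℕ} {a : ℝ} {p u : ℕ → E} {τ : ℕ → ℝ}
    (H : GoodPath3 h s y v (m + 1) a p u τ) (hv : ‖v‖ = 1)
    (w : Fin m → ℝ) (hw : ∀ k : Fin m, w k = if (k : ℕ) = 0 then a + τ 0 else τ k) :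
    HasStrictFDerivAt (Th3 h y v) (fderiv ℝ (Th3 h y v (m := m)) (s, w)) (s, w) ∧
      (fderiv ℝ (Th3 h y v (m := m)) (s, w)).range = ⊤ := by
  obtain ⟨⟨a1, a2, a3⟩, a4⟩ := cross3 H hv w hw
  have hp := pu3 H w hw
  have hgr : ∀ j < m, gradient (h (j + 1) s) (PU3 h y v (s, w) (j + 1)).1 ≠ 0 := by
    intro j hj
    rw [hp j hj]
    exact H.grad j (by omega)
  have hcd : ContDiffAt ℝ 1 (Th3 h y v (m := m)) (s, w) :=
    contDiffAt_Th3 hh y v (s, w) hgr (cross_ne hv a1 a2 a3)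
  have hst : HasStrictFDerivAt (Th3 h y v) (fderiv ℝ (Th3 h y v (m := m)) (s, w)) (s, w) :=
    hcd.hasStrictFDerivAt one_ne_zero
  refine ⟨hst, ?_⟩
  set L := fderiv ℝ (Th3 h y v (m := m)) (s, w) with hL
  obtain ⟨c, hδ, hc1⟩ := H.sep
  have hline : ∀ q : S × (Fin m → ℝ), HasDerivAt (fun ε : ℝ => Th3 h y v ((s, w) + ε • q)) (L q) 0 := by
    intro q
    have h1 : HasDerivAt (fun ε : ℝ => (s, w) + ε • q) q 0 := by
      simpa using ((hasDerivAt_id (0 : ℝ)).smul_const q).const_add (s, w)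
    have h2 : HasFDerivAt (Th3 h y v (m := m)) L ((s, w) + (0 : ℝ) • q) := by
      rw [zero_smul, add_zero]; exact hst.hasFDerivAt
    exact h2.comp_hasDerivAt 0 h1
  refine range_top L c _ hδ ?_ ?_ ?_
  · -- the direction `c`
    have h1 := hline (c, 0)
    have h2 := PU3_stat HD hh w hgr (c := c) (fun k hk => by
      rw [hp k hk]; exact (hc1 (k + 1) (by omega) (by omega)).2)
    have h3 : (fun ε : ℝ => Th3 h y v ((s, w) + ε • (c, (0 : Fin m → ℝ)))) =
        fun ε : ℝ => Th3 h y v (s + ε • c, w) := by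
      funext ε
      have e1 : (s, w) + ε • (c, (0 : Fin m → ℝ)) = (s + ε • c, w) := by
        ext <;> simp
      rw [e1]
    rw [h3] at h1
    have h4 : HasDerivAt (fun ε : ℝ => Th3 h y v (s + ε • c, w))
        ((0 : Fin m → ℝ), D1 (h 0) s c (p 0)) 0 := by
      refine HasDerivAt.prodMk (hasDerivAt_pi.2 fun k => ?_) ?_
      · refine hasDerivAt_joint (F := fun z : S × E => h (k + 1) z.1 z.2) (x := p (k + 1)) ?_
          (h2 (k + 1) (by omega)).fst (by rw [zero_smul, add_zero, hp k k.2]) ?_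
        · exact ((hh (k + 1)).differentiable (by norm_num)) _
        · have := (HD E S (h (k + 1)) (hh (k + 1))).2.2.1 s c (p (k + 1))
          rw [(hc1 (k + 1) (by omega) (by omega)).1] at this
          exact this
      · refine hasDerivAt_joint (F := fun z : S × E => h 0 z.1 z.2) (x := p 0) ?_ ?_
          (by rw [zero_smul, add_zero]; exact a4) ?_
        · exact ((hh 0).differentiable (by norm_num)) _
        · have h5 : DifferentiableAt ℝ (fun z : E × E => cross y v z.1 z.2)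
              (PU3 h y v (s + (0 : ℝ) • c, w) m) := by
            rw [zero_smul, add_zero]
            exact (contDiffAt_cross y v (cross_ne hv a1 a2 a3)).differentiableAt one_ne_zero
          have h6 := h5.hasFDerivAt.comp_hasDerivAt (0 : ℝ) (h2 m le_rfl)
          rw [map_zero] at h6
          exact h6
        · exact (HD E S (h 0) (hh 0)).2.2.1 s c (p 0)
    exact h1.unique h4
  · -- the lengths, upper triangle
    intro j k hkj
    have h1 := (hasDerivAt_pi.1 (hline (0, Pi.single j 1)).fst) k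
    refine h1.unique ?_
    have h2 : (fun ε : ℝ => (Th3 h y v ((s, w) + ε • ((0 : S), (Pi.single j 1 : Fin m → ℝ)))).1 k) =
        fun ε : ℝ => h (k + 1) s (PU3 h y v (s, w) (k + 1)).1 := by
      funext ε
      have e1 : (s, w) + ε • ((0 : S), (Pi.single j 1 : Fin m → ℝ)) =
          (s, w + ε • (Pi.single j 1 : Fin m → ℝ)) := by
        ext <;> simp
      rw [e1]
      show h (k + 1) s (PU3 h y v (s, w + ε • (Pi.single j 1 : Fin m → ℝ)) (k + 1)).1 = _
      rw [PU3_eq_of_len w (w + ε • (Pi.single j 1 : Fin m → ℝ)) j ?_ (k + 1)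
        (by have : (k : ℕ) < j := hkj; omega)]
      intro i hi
      have : i ≠ j := by rintro rfl; exact lt_irrefl _ hi
      simp [this]
    rw [h2]
    exact hasDerivAt_const _ _
  · -- the lengths, diagonal
    intro j
    obtain ⟨v1, v2⟩ := vel3 H w hw j.2
    have h1 := (hasDerivAt_pi.1 (hline (0, Pi.single j 1)).fst) j
    have h2 : (fun ε : ℝ => (Th3 h y v ((s, w) + ε • ((0 : S), (Pi.single j 1 : Fin m → ℝ)))).1 j) =
        fun ε : ℝ => h (j + 1) s (p (j + 1) + ε • u j) := by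
      funext ε
      have e1 : (s, w) + ε • ((0 : S), (Pi.single j 1 : Fin m → ℝ)) =
          (s, w + ε • (Pi.single j 1 : Fin m → ℝ)) := by
        ext <;> simp
      rw [e1]
      show h (j + 1) s (PU3 h y v (s, w + ε • (Pi.single j 1 : Fin m → ℝ)) (j + 1)).1 = _
      have h3 := PU3_eq_of_len (h := h) (s := s) (y := y) (v := v) w
        (w + ε • (Pi.single j 1 : Fin m → ℝ)) j (fun i hi => by
          have : i ≠ j := by rintro rfl; exact lt_irrefl _ hi
          simp [this]) j le_rfl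
      have h4 : (PU3 h y v (s, w + ε • (Pi.single j 1 : Fin m → ℝ)) (j + 1)).1 =
          (PU3 h y v (s, w + ε • (Pi.single j 1 : Fin m → ℝ)) j).1 +
          ww (w + ε • (Pi.single j 1 : Fin m → ℝ)) j •
          (PU3 h y v (s, w + ε • (Pi.single j 1 : Fin m → ℝ)) j).2 := rfl
      have h5 : ww (w + ε • (Pi.single j 1 : Fin m → ℝ)) j = ww w j + ε := by
        simp [ww]
      rw [h4, h3, v1, h5, add_smul, ← add_assoc, v2]
    have h6 : HasDerivAt (fun ε : ℝ => h (j + 1) s (p (j + 1) + ε • u j))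
        (inner ℝ (u j) (gradient (h (j + 1) s) (p (j + 1)))) 0 := by
      rw [← fderiv_eq_inner]
      have h7 : HasDerivAt (fun ε : ℝ => p (j + 1) + ε • u j) (u j) 0 := by
        simpa using ((hasDerivAt_id (0 : ℝ)).smul_const (u j)).const_add (p (j + 1))
      have h8 : Differentiable ℝ (h (j + 1) s) := by
        have : ContDiff ℝ 2 (h (j + 1) s) := (hh (j + 1)).comp (contDiff_const.prodMk contDiff_id)
        exact this.differentiable (by norm_num)
      have h9 : HasFDerivAt (h (j + 1) s) (fderiv ℝ (h (j + 1) s) (p (j + 1)))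
          (p (j + 1) + (0 : ℝ) • u j) := by
        rw [zero_smul, add_zero]; exact (h8 _).hasFDerivAt
      exact h9.comp_hasDerivAt 0 h7
    rw [h2] at h1
    have h10 : (L (0, Pi.single j 1)).1 j = inner ℝ (u j) (gradient (h (j + 1) s) (p (j + 1))) :=
      h1.unique h6
    rw [h10]
    exact H.trans j (by omega)

end

theorem core3 (HP : S_PROJ) (HD : S_DER) : S_CORE3 := by
  intro E _ _ _ S _ _ _ _ _ μ _ h hh y v n hn hv
  obtain ⟨m, rfl⟩ : ∃ m, n = m + 1 := ⟨n - 1, by omega⟩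
  set P : Set (S × (Fin m → ℝ)) := {z | ∃ (a : ℝ) (p u : ℕ → E) (τ : ℕ → ℝ),
    GoodPath3 h z.1 y v (m + 1) a p u τ ∧
    ∀ k : Fin m, z.2 k = if (k : ℕ) = 0 then a + τ 0 else τ k} with hP
  have hloc : ∀ z ∈ P, ∃ N ∈ 𝓝 z, μ (Prod.fst '' (P ∩ N)) = 0 := by
    rintro ⟨s, w⟩ ⟨a, p, u, τ, H, hw⟩
    obtain ⟨h1, h2⟩ := surj3 HD hh H hv w hw
    obtain ⟨N, hN, h3⟩ := HP S (Fin m → ℝ) ((Fin m → ℝ) × ℝ) μ (Th3 h y v) _ (s, w) h1 h2
      (by simp)
    refine ⟨N, hN, measure_mono_null (image_mono ?_) h3⟩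
    rintro ⟨s', w'⟩ ⟨⟨a', p', u', τ', H', hw'⟩, hz⟩
    refine ⟨hz, ?_⟩
    rw [th3 H hv w hw, th3 H' hv w' hw']
  choose! N hN hN0 using hloc
  obtain ⟨c, hcP, hcc, hcov⟩ := TopologicalSpace.countable_cover_nhdsWithin
    (s := P) (f := N) (fun z hz => mem_nhdsWithin_of_mem_nhds (hN z hz))
  have hsub : {s | ∃ (a : ℝ) (p u : ℕ → E) (τ : ℕ → ℝ), GoodPath3 h s y v (m + 1) a p u τ} ⊆
      ⋃ z ∈ c, Prod.fst '' (P ∩ N z) := by
    rintro s ⟨a, p, u, τ, H⟩
    have hz : (s, fun k : Fin m => if (k : ℕ) = 0 then a + τ 0 else τ k) ∈ P :=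
      ⟨a, p, u, τ, H, fun k => rfl⟩
    obtain ⟨z, hz1, hz2⟩ := mem_iUnion₂.1 (hcov hz)
    exact mem_iUnion₂.2 ⟨z, hz1, _, ⟨hz, hz2⟩, rfl⟩
  exact measure_mono_null hsub ((measure_biUnion_null_iff hcc).2 fun z hz => hN0 z (hcP hz))

end Q263.IW
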