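import Pool.Agent.Q263.IV.Core

/-!
# Billiards with walls which depend on parameters: definitions

The table is `{x | ∀ i, h i x < 0}` with the walls `{h i = 0}`, `i : Fin m`; corners are allowed.
Project IWP of helper263.
-/

set_option autoImplicit false

open Set MeasureTheory Function Filter Topology
open scoped unitInterval ContDiff

namespace Q263.IW

open Pool.Agent.Y322.IV Q263.IV

/-- A piece of a billiard trajectory in the table `{x | ∀ i, h i x < 0}`: the bounce number `k` is at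
the point `p k` of the wall `ι k`, which is on no other wall (no corners), `u k` is the velocity after
this bounce. -/
def WTraj {E : Type} [NormedAddCommGroup E] [InnerProductSpace ℝ E] [CompleteSpace E] {m : ℕ}
    (h : Fin m → E → ℝ) (n : ℕ) (ι : ℕ → Fin m) (p u : ℕ → E) : Prop :=
  (∀ k ≤ n, h (ι k) (p k) = 0 ∧ (∀ j, j ≠ ι k → h j (p k) < 0) ∧ ‖u k‖ = 1 ∧
    inner ℝ (u k) (gradient (h (ι k)) (p k)) < 0) ∧
  ∀ k < n, (∃ t : ℝ, 0 < t ∧ p (k + 1) = p k + t • u k ∧
      ∀ s ∈ Ioo (0 : ℝ) t, ∀ j, h j (p k + s • u k) < 0) ∧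
    u (k + 1) = u k - (2 * inner ℝ (u k) (gradient (h (ι (k + 1))) (p (k + 1))) /
      ‖gradient (h (ι (k + 1))) (p (k + 1))‖ ^ 2) • gradient (h (ι (k + 1))) (p (k + 1))

/-- The function `-∏ (-h i)`. -/
def wallProd {E : Type} {m : ℕ} (h : Fin m → E → ℝ) (x : E) : ℝ := -∏ i, -h i x

/-- The derivative of `s ↦ h s p` in the direction `c`. -/
noncomputable def D1 {E S : Type} [NormedAddCommGroup S] [NormedSpace ℝ S] (h : S → E → ℝ) (s c : S)
    (p : E) : ℝ := fderiv ℝ (fun s => h s p) s c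

/-- The derivative of `s ↦ gradient (h s) p` in the direction `c`. -/
noncomputable def D2 {E S : Type} [NormedAddCommGroup E] [InnerProductSpace ℝ E] [CompleteSpace E]
    [NormedAddCommGroup S] [NormedSpace ℝ S] (h : S → E → ℝ) (s c : S) (p : E) : E :=
  fderiv ℝ (fun s => gradient (h s) p) s c

/-- Closed version of a loop: a trajectory of `n` steps which starts on the oriented line through `y`
with direction `e + w`, comes back to its first bounce point, not along the same line, with all its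
constants bounded by `c` and `M`, and a direction `b` of the parameter space with
`P1 b (p 0) ≥ c`, `P1 b (p k) = 0` and `P2 b (p k) = 0` at all the bounce points in between (`P1`, `P2`
stand for the derivatives of `h` and of its gradient `G`; they depend on the wall `ι k`). The sets
between the bounce points do not matter. -/
structure Loop3 {E S : Type} [NormedAddCommGroup E] [InnerProductSpace ℝ E] [Norm S] {m : ℕ}
    (h : Fin m → E → ℝ) (G : Fin m → E → E) (P1 : Fin m → S → E → ℝ) (P2 : Fin m → S → E → E)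
    (e y w : E) (n : ℕ) (ι : ℕ → Fin m) (c M : ℝ) (a : ℝ) (p u : ℕ → E) (τ : ℕ → ℝ) (b : S) :
    Prop where
  ybd : ‖y‖ ≤ M
  wbd : ‖w‖ ≤ M
  abd : |a| ≤ M
  start : p 0 = y + a • (e + w)
  dir : ‖e + w‖ • u 0 = e + w
  zero : ∀ k ≤ n, h (ι k) (p k) = 0
  unit : ∀ k ≤ n, ‖u k‖ = 1
  out : ∀ k ≤ n, inner ℝ (u k) (G (ι k) (p k)) ≤ -c
  tlo : ∀ k < n, c ≤ τ k
  thi : ∀ k < n, τ k ≤ M
  move : ∀ k < n, p (k + 1) = p k + τ k • u k
  refl : ∀ k < n, ‖G (ι (k + 1)) (p (k + 1))‖ ^ 2 • u (k + 1) =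
    ‖G (ι (k + 1)) (p (k + 1))‖ ^ 2 • u k -
      (2 * inner ℝ (u k) (G (ι (k + 1)) (p (k + 1)))) • G (ι (k + 1)) (p (k + 1))
  ret : p n = p 0
  wall : ι n = ι 0
  nonret : c ≤ ‖u (n - 1) + u 0‖
  bbd : ‖b‖ ≤ M
  sep0 : c ≤ P1 (ι 0) b (p 0)
  sep1 : ∀ k, 0 < k → k < n → P1 (ι k) b (p k) = 0
  sep2 : ∀ k, 0 < k → k < n → P2 (ι k) b (p k) = 0

/-- The set of the parameters `t` and lines `(y, w)` which carry a loop. -/
def LoopSet3 {E S T : Type} [NormedAddCommGroup E] [InnerProductSpace ℝ E] [Norm S] {m : ℕ}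
    (F : T → Fin m → E → ℝ) (G : T → Fin m → E → E) (P1 : T → Fin m → S → E → ℝ)
    (P2 : T → Fin m → S → E → E) (e : E) (n : ℕ) (ι : ℕ → Fin m) (c M : ℝ) :
    Set (T × ((ℝ ∙ e)ᗮ × (ℝ ∙ e)ᗮ)) :=
  {z | ∃ (a : ℝ) (p u : ℕ → E) (τ : ℕ → ℝ) (b : S),
    Loop3 (F z.1) (G z.1) (P1 z.1) (P2 z.1) e (z.2.1 : E) (z.2.2 : E) n ι c M a p u τ b}

/-- The lines which carry a loop for the table with the walls `h`. -/
def Lines3 {E S : Type} [NormedAddCommGroup E] [InnerProductSpace ℝ E] [CompleteSpace E] [Norm S]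
    {m : ℕ} (h : Fin m → E → ℝ) (P1 : Fin m → S → E → ℝ) (P2 : Fin m → S → E → E) (e : E)
    (n : ℕ) (ι : ℕ → Fin m) (c M : ℝ) : Set ((ℝ ∙ e)ᗮ × (ℝ ∙ e)ᗮ) :=
  {z | ∃ (a : ℝ) (p u : ℕ → E) (τ : ℕ → ℝ) (b : S),
    Loop3 h (fun i => gradient (h i)) P1 P2 e (z.1 : E) (z.2 : E) n ι c M a p u τ b}

/-- A path of `n` steps, the bounce number `k` being for the function `h k s`, which starts on the line
through `y` with direction `v`, comes back to its first point, not along the same line, and whose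
first point can be moved, to first order, by a direction `c` of the parameter space which does not
affect the other points. -/
structure GoodPath3 {E S : Type} [NormedAddCommGroup E] [InnerProductSpace ℝ E] [CompleteSpace E]
    [NormedAddCommGroup S] [NormedSpace ℝ S] (h : ℕ → S → E → ℝ) (s : S) (y v : E)
    (n : ℕ) (a : ℝ) (p u : ℕ → E) (τ : ℕ → ℝ) : Prop where
  start : p 0 = y + a • v
  dir : u 0 = v
  zero : ∀ k < n, h k s (p k) = 0
  unit : ∀ k < n, ‖u k‖ = 1
  move : ∀ k < n, p (k + 1) = p k + τ k • u k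
  grad : ∀ k, k + 1 < n → gradient (h (k + 1) s) (p (k + 1)) ≠ 0
  trans : ∀ k, k + 1 < n → inner ℝ (u k) (gradient (h (k + 1) s) (p (k + 1))) ≠ 0
  refl : ∀ k, k + 1 < n → u (k + 1) = u k - (2 * inner ℝ (u k) (gradient (h (k + 1) s) (p (k + 1))) /
    ‖gradient (h (k + 1) s) (p (k + 1))‖ ^ 2) • gradient (h (k + 1) s) (p (k + 1))
  ret : p n = p 0
  non1 : u (n - 1) ≠ u 0
  non2 : u (n - 1) ≠ -u 0
  sep : ∃ c : S, D1 (h 0) s c (p 0) ≠ 0 ∧
    ∀ k, 0 < k → k < n → D1 (h k) s c (p k) = 0 ∧ D2 (h k) s c (p k) = 0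

/-! ### The lemmas -/

/-- IWP-CLOSED. The set of loops is closed. Copy `Pool.Agent.Q38.IV.closed2`
(`Pool/Agent/Q38/IV/Closed2.lean`), which is for one function and has one more condition (`neg`). -/
def S_CLOSED3 : Prop :=
  ∀ (E : Type) [NormedAddCommGroup E] [InnerProductSpace ℝ E] [FiniteDimensional ℝ E]
    (S : Type) [NormedAddCommGroup S] [NormedSpace ℝ S] [FiniteDimensional ℝ S]
    (T : Type) [TopologicalSpace T] (m : ℕ) (F : T → Fin m → E → ℝ) (G : T → Fin m → E → E)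
    (P1 : T → Fin m → S → E → ℝ) (P2 : T → Fin m → S → E → E),
    (∀ i, Continuous (fun z : T × E => F z.1 i z.2)) →
    (∀ i, Continuous (fun z : T × E => G z.1 i z.2)) →
    (∀ i, Continuous (fun z : T × S × E => P1 z.1 i z.2.1 z.2.2)) →
    (∀ i, Continuous (fun z : T × S × E => P2 z.1 i z.2.1 z.2.2)) →
    ∀ (e : E) (n : ℕ) (ι : ℕ → Fin m) (c M : ℝ), 0 < c → IsClosed (LoopSet3 F G P1 P2 e n ι c M)

/-- IWP-LOOP. A trajectory which comes back to its first bounce point is a loop. Copy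
`Q144.IV.loop2` (`Pool/Agent/Q144/IV/Loop.lean`), with `γ = 1` and without the condition `neg`. The
condition `wall` holds because `p n = p 0` is only on one wall. `Traj (wallProd h) n p u` (a
consequence of `WTraj h n ι p u`, see `S_PROD`) gives the membership in `Graph (wallProd h) _`. -/
def S_LOOP3 : Prop :=
  ∀ (E : Type) [NormedAddCommGroup E] [InnerProductSpace ℝ E] [FiniteDimensional ℝ E]
    (S : Type) [NormedAddCommGroup S] (m : ℕ) (h : Fin m → E → ℝ) (P1 : Fin m → S → E → ℝ)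
    (P2 : Fin m → S → E → E) (n : ℕ) (ι : ℕ → Fin m) (p u : ℕ → E), 1 ≤ n → WTraj h n ι p u →
    Traj (wallProd h) n p u → p n = p 0 → u (n - 1) ≠ -u 0 → ∀ b : S, 0 < P1 (ι 0) b (p 0) →
    (∀ k, 0 < k → k < n → P1 (ι k) b (p k) = 0 ∧ P2 (ι k) b (p k) = 0) →
    ∀ e : E, ‖e‖ = 1 → 0 < inner ℝ e (u 0) →
    ∃ k : ℕ, (p 0, u 0) ∈ OnLines (wallProd h) e
      (Lines3 h P1 P2 e n ι (1 / ((k : ℝ) + 1)) ((k : ℝ) + 1))

/-- IWP-PROD. A trajectory in the table with walls is a trajectory for the function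
`-∏ (-h i)`: at a point where `h i = 0` and the other `h j` are negative, its gradient is
`(∏ j ≠ i, -h j) • gradient (h i)`, a positive multiple. -/
def S_PROD : Prop :=
  ∀ (E : Type) [NormedAddCommGroup E] [InnerProductSpace ℝ E] [FiniteDimensional ℝ E]
    (m : ℕ) (h : Fin m → E → ℝ), (∀ i, ContDiff ℝ 2 (h i)) →
    ContDiff ℝ 2 (wallProd h) ∧ ∀ (n : ℕ) (ι : ℕ → Fin m) (p u : ℕ → E),
      WTraj h n ι p u → Traj (wallProd h) n p u

/-- IWP-DER. The partial derivatives of a `C²` function with respect to the parameters. -/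
def S_DER : Prop :=
  ∀ (E : Type) [NormedAddCommGroup E] [InnerProductSpace ℝ E] [FiniteDimensional ℝ E]
    (S : Type) [NormedAddCommGroup S] [NormedSpace ℝ S] [FiniteDimensional ℝ S] (h : S → E → ℝ),
    ContDiff ℝ 2 (fun z : S × E => h z.1 z.2) →
    Continuous (fun z : S × S × E => D1 h z.1 z.2.1 z.2.2) ∧
    Continuous (fun z : S × S × E => D2 h z.1 z.2.1 z.2.2) ∧
    (∀ s c p, HasDerivAt (fun r : ℝ => h (s + r • c) p) (D1 h s c p) 0) ∧
    (∀ s c p, HasDerivAt (fun r : ℝ => gradient (h (s + r • c)) p) (D2 h s c p) 0)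

/-- IWP-CORE (helper263 does this one). -/
def S_CORE3 : Prop :=
  ∀ (E : Type) [NormedAddCommGroup E] [InnerProductSpace ℝ E] [FiniteDimensional ℝ E]
    (S : Type) [NormedAddCommGroup S] [NormedSpace ℝ S] [FiniteDimensional ℝ S]
    [MeasurableSpace S] [BorelSpace S] (μ : Measure S) [μ.IsAddHaarMeasure]
    (h : ℕ → S → E → ℝ), (∀ k, ContDiff ℝ 2 (fun z : S × E => h k z.1 z.2)) →
    ∀ (y v : E) (n : ℕ), 1 ≤ n → ‖v‖ = 1 →
      μ {s | ∃ (a : ℝ) (p u : ℕ → E) (τ : ℕ → ℝ), GoodPath3 h s y v n a p u τ} = 0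

end Q263.IW
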