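import Pool.Agent.Q263.IW.Cor
import Pool.Agent.Q285.IW.Closed3
import Pool.Agent.Q285.IW.Loop3
import Pool.Agent.Q285.IW.Prod3
import Pool.Agent.Q195.IW.Der
import Pool.Agent.Q263.IV.Final

/-!
# Billiard tables with walls: final statements

Project IWP of helper263, with the modules of helpers 285 (`Closed3`, `Loop3`, `Prod3`) and 195
(`Der`), and those of project IVP (helpers 26, 38, 65, 144).
-/

set_option autoImplicit false

open Set MeasureTheory Function Filter Topology
open scoped ContDiff unitInterval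

namespace Q263.IW

open Pool.Agent.Y322.IV Q263.IV

/-- Almost every trajectory in the table `{x | ∀ i, h i x < 0}` does not meet a boundary point twice
within `N` bounces, and almost no phase point is periodic with a period at most `N`. -/
def GoodW {E : Type} [NormedAddCommGroup E] [InnerProductSpace ℝ E] [FiniteDimensional ℝ E]
    [MeasurableSpace E] [BorelSpace E] (d N : ℕ) {m : ℕ} (h : Fin m → E → ℝ) : Prop :=
  μH[((2 * d - 2 : ℕ) : ℝ)] (WTwice N h) = 0 ∧ μH[((2 * d - 2 : ℕ) : ℝ)] (WPer N h) = 0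

/-- For every family of tables with walls which depend on a parameter `s` of class `C²`, for almost
every `s`, almost no trajectory comes back to a bounce point at which the wall can be moved, to the
first order, without moving the walls and the normals at the bounce points in between. -/
def MovFam (E : Type) [NormedAddCommGroup E] [InnerProductSpace ℝ E] [FiniteDimensional ℝ E]
    [MeasurableSpace E] [BorelSpace E] (d : ℕ) : Prop :=
  ∀ (S : Type) [NormedAddCommGroup S] [NormedSpace ℝ S] [FiniteDimensional ℝ S]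
    [MeasurableSpace S] [BorelSpace S] (μ : Measure S) [μ.IsAddHaarMeasure] (m : ℕ)
    (h : Fin m → S → E → ℝ), (∀ i, ContDiff ℝ 2 (fun z : S × E => h i z.1 z.2)) →
    ∀ᵐ s ∂μ, μH[((2 * d - 2 : ℕ) : ℝ)] (Movable h s) = 0

/-- For arbitrary walls `{f i = 0}` and almost all translations `s i`, almost no trajectory in the
table with the walls `{f i = 0} + s i` comes back to a bounce point without having met the wall of
this point in the meantime, and almost no periodic trajectory meets some wall exactly once. -/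
def TransFam (E : Type) [NormedAddCommGroup E] [InnerProductSpace ℝ E] [FiniteDimensional ℝ E]
    [MeasurableSpace E] [BorelSpace E] (d : ℕ) : Prop :=
  ∀ (m : ℕ) (f : Fin m → E → ℝ) (μ : Measure (Fin m → E)) [μ.IsAddHaarMeasure],
    (∀ i, ContDiff ℝ 2 (f i)) →
    ∀ᵐ s ∂μ, μH[((2 * d - 2 : ℕ) : ℝ)] (ReturnWall fun i x => f i (x - s i)) = 0 ∧
      μH[((2 * d - 2 : ℕ) : ℝ)] (PerOnce fun i x => f i (x - s i)) = 0

/-- For all walls `f i` and almost every polynomial `P` of degree at most `D` in each variable the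
table `{x | ∀ i, f i x + P x < 0}` is good for `N`, if `D ≥ 2 (N - 1)`. -/
def PolW (d : ℕ) : Prop :=
  ∀ (m N D : ℕ) (f : Fin m → EuclideanSpace ℝ (Fin d) → ℝ), 2 * (N - 1) ≤ D →
    (∀ i, ContDiff ℝ 2 (f i)) →
    ∀ᵐ c : (Fin d → Fin (D + 1)) → ℝ, GoodW d N fun i x => f i x + pol c x

/-- There are sequences of polynomials with arbitrarily small coefficients such that for all walls
`f i` and almost every point `t` of the Hilbert cube the table with the walls
`f i + ∑ j, t j * pol (c j)` is good for all `N`. -/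
def EntW (d : ℕ) : Prop :=
  ∀ δ : ℕ → ℝ, (∀ j, 0 < δ j) →
    ∃ (D : ℕ → ℕ) (c : ∀ j, (Fin d → Fin (D j + 1)) → ℝ),
      (∀ j, ∑ α, |c j α| * ((j : ℝ) + 1) ^ (∑ i, (α i : ℕ)) ≤ δ j) ∧
      ∀ (m : ℕ) (f : Fin m → EuclideanSpace ℝ (Fin d) → ℝ), (∀ i, ContDiff ℝ 2 (f i)) →
        ∀ᵐ t ∂(Measure.infinitePi (fun _ : ℕ => (volume : Measure I))),
          ∀ N : ℕ, GoodW d N fun i x => f i x + ∑' j, (t j : ℝ) * pol (c j) x

section
variable {E : Type} [NormedAddCommGroup E] [InnerProductSpace ℝ E] [FiniteDimensional ℝ E]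
    [MeasurableSpace E] [BorelSpace E]

theorem goodW_of {d N m : ℕ} {h : Fin m → E → ℝ}
    (H : μH[((2 * d - 2 : ℕ) : ℝ)] (WTwice N h) = 0) : GoodW d N h :=
  ⟨H, measure_mono_null (WPer_subset N h) H⟩

theorem movFam {d : ℕ} (hd : 2 ≤ d) (hE : Module.finrank ℝ E = d) : MovFam E d := by
  intro S _ _ _ _ _ μ _ m h hh
  exact ae_Movable (core3 Q144.IV.proj Pool.Agent.Q195.IW.der3) Q285.IW.closed3
    Pool.Agent.Q195.IW.der3 Q285.IW.loop3 Q285.IW.prod3 μ hd hE hh

theorem transFam {d : ℕ} (hd : 2 ≤ d) (hE : Module.finrank ℝ E = d) : TransFam E d := by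
  intro m f μ _ hf
  filter_upwards [movFam hd hE (Fin m → E) μ m (trans f) (trans_contDiff hf)] with s hs
  have h1 := measure_mono_null (ReturnWall_subset Pool.Agent.Q195.IW.der3 hf s) hs
  exact ⟨h1, measure_mono_null (PerOnce_subset _) h1⟩

end

theorem polW {d : ℕ} (hd : 2 ≤ d) : PolW d := by
  intro m N D f hD hf
  have h1 := ae_fam (core3 Q144.IV.proj Pool.Agent.Q195.IW.der3) Q285.IW.closed3
    Pool.Agent.Q195.IW.der3 Q285.IW.loop3 Q285.IW.prod3
    (volume : Measure ((Fin d → Fin (D + 1)) → ℝ)) hd (by simp) hf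
    { toFun := fun c => pol c
      map_add' := fun b c => by
        funext x
        exact pol_add _ _ _
      map_smul' := fun r b => by
        funext x
        exact pol_smul _ _ _ } (fun c => pol_contDiff _) (N := N) (fun A q hA hq => by
        obtain ⟨c, _, hc2, hc3⟩ := Q144.IV.poly d D N ⊥ (by simpa using hD) A q hA (by
          intro γ hγ hmem
          rw [Subgroup.mem_bot] at hγ
          subst hγ
          exact hq hmem)
        exact ⟨c, hc2, hc3⟩)
  filter_upwards [h1] with c hc
  exact goodW_of hc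

theorem entW {d : ℕ} (hd : 2 ≤ d) : EntW d := by
  intro δ hδ
  obtain ⟨D, c, _, h2, h3, h4⟩ := exists_seq Q144.IV.poly ⊥ δ hδ
  refine ⟨D, c, h2, fun m f hf => ?_⟩
  filter_upwards [ae_seq (core3 Q144.IV.proj Pool.Agent.Q195.IW.der3) Q285.IW.closed3
    Pool.Agent.Q195.IW.der3 Q285.IW.loop3 Q285.IW.prod3 Q144.IV.resamp Q263.IV.series hd (by simp)
    hf (g := fun j => pol (c j)) (fun j => pol_contDiff _) h3 (fun K A q _ hq => by
      obtain ⟨J, b, h5, h6⟩ := h4 A q (by
        intro γ hγ hmem
        rw [Subgroup.mem_bot] at hγ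
        subst hγ
        exact hq hmem)
      exact ⟨⟨J, b⟩, h5, h6⟩)] with t ht N
  exact goodW_of (ht N)

end Q263.IW
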