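import Pool.Agent.Q263.IW.Core3
import Pool.Agent.Q263.IV.Fin
import Pool.Agent.Y322.IV.Cover
import Pool.Agent.Y515.IV.Retr

/-!
# Almost every member of a family of billiard tables with walls
-/

set_option autoImplicit false

open Set MeasureTheory Function Filter Topology
open scoped unitInterval ContDiff

namespace Q263.IW

open Pool.Agent.Y322.IV Q263.IV

section defs
variable {E S : Type} [NormedAddCommGroup E] [InnerProductSpace ℝ E] [CompleteSpace E]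
  [NormedAddCommGroup S] [NormedSpace ℝ S] {m : ℕ}

/-- The phase points of the table with the walls `h i s` whose trajectory comes back to one of its
bounce points, `p b = p a`, `a < b`, and for which there is a direction `c` of the parameter space
which, to the first order, moves the wall at `p a` and leaves the walls and their normals at the
bounce points in between unchanged. -/
def Movable (h : Fin m → S → E → ℝ) (s : S) : Set (E × E) :=
  {x | ∃ (n : ℕ) (ι : ℕ → Fin m) (p u : ℕ → E), WTraj (fun i => h i s) n ι p u ∧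
    p 0 = x.1 ∧ u 0 = x.2 ∧ ∃ a b : ℕ, a < b ∧ b ≤ n ∧ p b = p a ∧
      ∃ c : S, D1 (h (ι a)) s c (p a) ≠ 0 ∧
        ∀ k, a < k → k < b → D1 (h (ι k)) s c (p k) = 0 ∧ D2 (h (ι k)) s c (p k) = 0}

/-- The same for the table with the walls `h` and general functions `P1`, `P2` instead of the
derivatives. -/
def MovG (h : Fin m → E → ℝ) (P1 : Fin m → S → E → ℝ) (P2 : Fin m → S → E → E) : Set (E × E) :=
  {x | ∃ (n : ℕ) (ι : ℕ → Fin m) (p u : ℕ → E), WTraj h n ι p u ∧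
    p 0 = x.1 ∧ u 0 = x.2 ∧ ∃ a b : ℕ, a < b ∧ b ≤ n ∧ p b = p a ∧
      ∃ c : S, P1 (ι a) c (p a) ≠ 0 ∧
        ∀ k, a < k → k < b → P1 (ι k) c (p k) = 0 ∧ P2 (ι k) c (p k) = 0}

/-- The same with `a = 0`. -/
def MovG0 (h : Fin m → E → ℝ) (P1 : Fin m → S → E → ℝ) (P2 : Fin m → S → E → E) : Set (E × E) :=
  {x | ∃ (n : ℕ) (ι : ℕ → Fin m) (p u : ℕ → E), 1 ≤ n ∧ WTraj h n ι p u ∧
    p 0 = x.1 ∧ u 0 = x.2 ∧ p n = p 0 ∧ ∃ c : S, P1 (ι 0) c (p 0) ≠ 0 ∧
        ∀ k, 0 < k → k < n → P1 (ι k) c (p k) = 0 ∧ P2 (ι k) c (p k) = 0}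

omit [NormedSpace ℝ S] [NormedAddCommGroup S] in
theorem WTraj.congr {h : Fin m → E → ℝ} {n : ℕ} {ι ι' : ℕ → Fin m} {p u : ℕ → E}
    (H : WTraj h n ι p u) (hι : ∀ k ≤ n, ι' k = ι k) : WTraj h n ι' p u := by
  refine ⟨fun k hk => ?_, fun k hk => ?_⟩
  · rw [hι k hk]; exact H.1 k hk
  · rw [hι (k + 1) hk]; exact H.2 k hk

omit [NormedSpace ℝ S] [NormedAddCommGroup S] in
theorem WTraj.mono {h : Fin m → E → ℝ} {n n' : ℕ} {ι : ℕ → Fin m} {p u : ℕ → E}
    (H : WTraj h n ι p u) (hn : n' ≤ n) : WTraj h n' ι p u :=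
  ⟨fun k hk => H.1 k (hk.trans hn), fun k hk => H.2 k (lt_of_lt_of_le hk hn)⟩

omit [NormedSpace ℝ S] [NormedAddCommGroup S] in
theorem WTraj.shift {h : Fin m → E → ℝ} {n a : ℕ} {ι : ℕ → Fin m} {p u : ℕ → E}
    (H : WTraj h (n + a) ι p u) :
    WTraj h n (fun k => ι (k + a)) (fun k => p (k + a)) (fun k => u (k + a)) := by
  refine ⟨fun k hk => H.1 (k + a) (by omega), fun k hk => ?_⟩
  have := H.2 (k + a) (by omega)
  have e : k + 1 + a = k + a + 1 := by omega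
  simp only [e]
  exact this

/-- The sequence `κ` continued by its last value. -/
def extn {n : ℕ} (κ : Fin (n + 1) → Fin m) (k : ℕ) : Fin m := κ ⟨min k n, by omega⟩

theorem extn_eq {n : ℕ} (ι : ℕ → Fin m) {k : ℕ} (hk : k ≤ n) :
    extn (fun i : Fin (n + 1) => ι i) k = ι k := by
  simp [extn, hk]

end defs

variable {E S : Type} [NormedAddCommGroup E] [InnerProductSpace ℝ E] [FiniteDimensional ℝ E]
  [NormedAddCommGroup S] [NormedSpace ℝ S] [FiniteDimensional ℝ S] {m : ℕ}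

omit [FiniteDimensional ℝ S] in
/-- A loop is a good path. -/
theorem good3_of_loop {h : Fin m → S → E → ℝ} {s : S} {e y w : E} (hew : e + w ≠ 0) {n : ℕ}
    (hn : 1 ≤ n) {ι : ℕ → Fin m} {c M a : ℝ} (hc : 0 < c) {b : S} {p u : ℕ → E} {τ : ℕ → ℝ}
    (H : Loop3 (fun i => h i s) (fun i => gradient (h i s)) (fun i b x => D1 (h i) s b x)
      (fun i b x => D2 (h i) s b x) e y w n ι c M a p u τ b) :
    GoodPath3 (fun k => h (ι k)) s y (‖e + w‖⁻¹ • (e + w)) n (a * ‖e + w‖) p u τ := by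
  have hn0 : ‖e + w‖ ≠ 0 := norm_ne_zero_iff.2 hew
  set g : ℕ → E := fun k => gradient (h (ι k) s) (p k) with hg0
  have hout : ∀ k ≤ n, inner ℝ (u k) (g k) ≤ -c := H.out
  have hg : ∀ k ≤ n, g k ≠ 0 := by
    intro k hk h0
    have := hout k hk
    rw [h0, inner_zero_right] at this
    linarith
  have hrefl : ∀ k < n, u (k + 1) = u k - (2 * inner ℝ (u k) (g (k + 1)) /
      ‖g (k + 1)‖ ^ 2) • g (k + 1) := by
    intro k hk
    have h1 := hg (k + 1) hk
    have h2 : ‖g (k + 1)‖ ^ 2 ≠ 0 := by positivity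
    have h3 : ‖g (k + 1)‖ ^ 2 • u (k + 1) = ‖g (k + 1)‖ ^ 2 • u k -
      (2 * inner ℝ (u k) (g (k + 1))) • g (k + 1) := H.refl k hk
    have h4 : u (k + 1) = (‖g (k + 1)‖ ^ 2)⁻¹ • (‖g (k + 1)‖ ^ 2 • u (k + 1)) := by
      rw [smul_smul, inv_mul_cancel₀ h2, one_smul]
    rw [h4, h3, smul_sub, smul_smul, smul_smul, inv_mul_cancel₀ h2, one_smul]
    congr 2
    rw [div_eq_inv_mul]
  have hin : ∀ k < n, c ≤ inner ℝ (u k) (g (k + 1)) := by
    intro k hk
    have h1 := hg (k + 1) hk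
    have h2 : ‖g (k + 1)‖ ^ 2 ≠ 0 := by positivity
    have h3 := hout (k + 1) hk
    rw [hrefl k hk, inner_sub_left, real_inner_smul_left, real_inner_self_eq_norm_sq] at h3
    have h4 : 2 * inner ℝ (u k) (g (k + 1)) / ‖g (k + 1)‖ ^ 2 * ‖g (k + 1)‖ ^ 2 =
        2 * inner ℝ (u k) (g (k + 1)) := by
      field_simp
    rw [h4] at h3
    linarith
  refine
    { start := ?_, dir := ?_, zero := fun k hk => H.zero k hk.le, unit := fun k hk => H.unit k hk.le,
      move := H.move, grad := fun k hk => hg (k + 1) hk.le,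
      trans := fun k hk => (hc.trans_le (hin k (by omega))).ne',
      refl := fun k hk => hrefl k (by omega), ret := H.ret,
      non1 := ?_, non2 := ?_, sep := ⟨b, (hc.trans_le H.sep0).ne', fun k hk hkn =>
        ⟨H.sep1 k hk hkn, H.sep2 k hk hkn⟩⟩ }
  · rw [H.start, smul_smul, mul_assoc, mul_inv_cancel₀ hn0, mul_one]
  · have h9 : u 0 = ‖e + w‖⁻¹ • (‖e + w‖ • u 0) := by
      rw [smul_smul, inv_mul_cancel₀ hn0, one_smul]
    rw [h9, H.dir]
  · intro h0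
    have h1 := hin (n - 1) (by omega)
    have e1 : n - 1 + 1 = n := by omega
    have e2 : g n = g 0 := by
      simp only [hg0]
      rw [H.ret, H.wall]
    rw [e1, h0, e2] at h1
    have h2 := hout 0 (by omega)
    linarith
  · intro h0
    have h1 := H.nonret
    rw [h0, neg_add_cancel, norm_zero] at h1
    linarith

section meas
variable [MeasurableSpace E] [BorelSpace E] [MeasurableSpace S] [BorelSpace S]

/-- Almost every member of a family: the lines with loops. -/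
theorem ae_Lines3 (HC : S_CORE3) (HK : S_CLOSED3) (HD : S_DER) (μ : Measure S) [μ.IsAddHaarMeasure]
    {d : ℕ} (hE : Module.finrank ℝ E = d) {h : Fin m → S → E → ℝ}
    (hh : ∀ i, ContDiff ℝ 2 (fun z : S × E => h i z.1 z.2)) {e : E} (he : ‖e‖ = 1) {n : ℕ}
    (hn : 1 ≤ n) (ι : ℕ → Fin m) {c M : ℝ} (hc : 0 < c) :
    ∀ᵐ s ∂μ, μH[((2 * d - 2 : ℕ) : ℝ)]
      (Lines3 (fun i => h i s) (fun i b x => D1 (h i) s b x) (fun i b x => D2 (h i) s b x)
        e n ι c M) = 0 := by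
  have hH := haar_lines hE he
  have hcl := HK E S S m (fun s i => h i s) (fun s i => gradient (h i s))
    (fun s i b x => D1 (h i) s b x) (fun s i b x => D2 (h i) s b x)
    (fun i => (hh i).continuous) (fun i => (contDiff_grad2 (hh i)).continuous)
    (fun i => (HD E S (h i) (hh i)).1) (fun i => (HD E S (h i) (hh i)).2.1) e n ι c M hc
  have hm := hcl.measurableSet
  have hsf : SFinite (μH[((2 * d - 2 : ℕ) : ℝ)] : Measure ((ℝ ∙ e)ᗮ × (ℝ ∙ e)ᗮ)) :=
    inferInstance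
  have hall : ∀ z : (ℝ ∙ e)ᗮ × (ℝ ∙ e)ᗮ, μ {s | (s, z) ∈ LoopSet3 (fun s i => h i s)
      (fun s i => gradient (h i s)) (fun s i b x => D1 (h i) s b x)
      (fun s i b x => D2 (h i) s b x) e n ι c M} = 0 := by
    intro z
    have hew := add_ne_zero_of_mem he z.2
    have h1 := HC E S μ (fun k => h (ι k)) (fun k => hh (ι k)) (z.1 : E)
      (‖e + (z.2 : E)‖⁻¹ • (e + (z.2 : E))) n hn (by
        rw [norm_smul, norm_inv, norm_norm, inv_mul_cancel₀ (norm_ne_zero_iff.2 hew)])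
    refine measure_mono_null ?_ h1
    rintro s ⟨a, p, u, τ, b, H⟩
    exact ⟨_, p, u, τ, good3_of_loop hew hn hc H⟩
  have hfin := swap_null μ (μH[((2 * d - 2 : ℕ) : ℝ)] : Measure ((ℝ ∙ e)ᗮ × (ℝ ∙ e)ᗮ)) hm hall
  filter_upwards [hfin] with s hs
  exact hs

omit [MeasurableSpace S] [BorelSpace S] [FiniteDimensional ℝ S] [NormedSpace ℝ S] in
theorem null_MovG0 (HL : S_LOOP3) (HPr : S_PROD) {d : ℕ} (hd : 2 ≤ d)
    (hE : Module.finrank ℝ E = d) {h : Fin m → E → ℝ} (hh : ∀ i, ContDiff ℝ 2 (h i))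
    {P1 : Fin m → S → E → ℝ} {P2 : Fin m → S → E → E} (hP1 : ∀ i c x, P1 i (-c) x = -P1 i c x)
    (hP2 : ∀ i c x, P2 i (-c) x = -P2 i c x)
    (hall : ∀ z : (Σ n : ℕ, Fin (n + 1) → Fin m) × ℕ × (Fin (Module.finrank ℝ E) × Bool),
      1 ≤ z.1.1 → μH[((2 * d - 2 : ℕ) : ℝ)] (Lines3 h P1 P2 (dirs E z.2.2) z.1.1 (extn z.1.2)
        (1 / ((z.2.1 : ℝ) + 1)) ((z.2.1 : ℝ) + 1)) = 0) :
    μH[((2 * d - 2 : ℕ) : ℝ)] (MovG0 h P1 P2) = 0 := by
  have hs : (0 : ℝ) ≤ ((2 * d - 2 : ℕ) : ℝ) := Nat.cast_nonneg _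
  obtain ⟨hH, hT⟩ := HPr E m h hh
  set H := wallProd h with hHdef
  set P : Set (E × E) := {x : E × E | ∃ (n : ℕ) (p u : ℕ → E), 1 ≤ n ∧ Traj H n p u ∧
    p 0 = x.1 ∧ u 0 = x.2 ∧ p n = p 0 ∧ u (n - 1) = -u 0} with hP
  have hcov : MovG0 h P1 P2 ⊆ P ∪ ⋃ z : (Σ n : ℕ, Fin (n + 1) → Fin m) × ℕ ×
      (Fin (Module.finrank ℝ E) × Bool),
      OnLines H (dirs E z.2.2) {x | 1 ≤ z.1.1 ∧
        x ∈ Lines3 h P1 P2 (dirs E z.2.2) z.1.1 (extn z.1.2) (1 / ((z.2.1 : ℝ) + 1))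
        ((z.2.1 : ℝ) + 1)} := by
    rintro ⟨q, v⟩ ⟨n, ι, p, u, hn, HW, hp, hu, hret, c, hc1, hc2⟩
    simp only at hp hu
    have HTr := hT n ι p u HW
    by_cases hneg : u (n - 1) = -u 0
    · exact Or.inl ⟨n, p, u, hn, HTr, hp, hu, hret, hneg⟩
    · right
      set ι' : ℕ → Fin m := extn (fun i : Fin (n + 1) => ι i) with hι'
      have hιι : ∀ k ≤ n, ι' k = ι k := fun k hk => extn_eq ι hk
      have HW' : WTraj h n ι' p u := HW.congr hιι
      obtain ⟨b, hb1, hb2⟩ : ∃ b : S, 0 < P1 (ι' 0) b (p 0) ∧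
          ∀ k, 0 < k → k < n → P1 (ι' k) b (p k) = 0 ∧ P2 (ι' k) b (p k) = 0 := by
        rcases lt_or_gt_of_ne hc1 with h1 | h1
        · refine ⟨-c, ?_, fun k hk hkn => ?_⟩
          · rw [hιι 0 (Nat.zero_le _), hP1]
            linarith
          · have := hc2 k hk hkn
            rw [hιι k hkn.le, hP1, hP2, this.1, this.2, neg_zero, neg_zero]
            exact ⟨rfl, rfl⟩
        · refine ⟨c, ?_, fun k hk hkn => ?_⟩
          · rw [hιι 0 (Nat.zero_le _)]; exact h1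
          · rw [hιι k hkn.le]; exact hc2 k hk hkn
      have hu0 : u 0 ≠ 0 := by
        intro h0
        have := (HW.1 0 (Nat.zero_le _)).2.2.1
        rw [h0, norm_zero] at this
        exact zero_ne_one this
      obtain ⟨i, hi⟩ := exists_dir hu0
      obtain ⟨k, hk⟩ := HL E S m h P1 P2 n ι' p u hn HW' HTr hret hneg b hb1 hb2
        (dirs E i) (dirs_norm i) hi
      refine mem_iUnion.2 ⟨(⟨n, fun i => ι i⟩, k, i), ?_⟩
      rw [← hp, ← hu]
      have e : {x | 1 ≤ n ∧ x ∈ Lines3 h P1 P2 (dirs E i) n ι' (1 / ((k : ℝ) + 1))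
          ((k : ℝ) + 1)} = Lines3 h P1 P2 (dirs E i) n ι' (1 / ((k : ℝ) + 1)) ((k : ℝ) + 1) := by
        ext x
        simp [hn]
      simp only [← hι', e]
      exact hk
  refine measure_mono_null hcov (measure_union_null ?_ (measure_iUnion_null fun z => ?_))
  · exact null_retrace Pool.Agent.Y515.IV.prove_retr hH hd hE
  · refine null_OnLines hH hs (dirs_norm _) _ ?_
    by_cases hz : 1 ≤ z.1.1
    · exact measure_mono_null (fun x hx => hx.2) (hall z hz)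
    · refine measure_mono_null (fun x hx => ?_) (measure_empty)
      exact absurd hx.1 hz

omit [MeasurableSpace S] [BorelSpace S] [FiniteDimensional ℝ S] [NormedSpace ℝ S] in
/-- If all the sets of lines with loops are null then `MovG` is null. -/
theorem null_MovG (HL : S_LOOP3) (HPr : S_PROD) {d : ℕ} (hd : 2 ≤ d)
    (hE : Module.finrank ℝ E = d) {h : Fin m → E → ℝ} (hh : ∀ i, ContDiff ℝ 2 (h i))
    {P1 : Fin m → S → E → ℝ} {P2 : Fin m → S → E → E} (hP1 : ∀ i c x, P1 i (-c) x = -P1 i c x)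
    (hP2 : ∀ i c x, P2 i (-c) x = -P2 i c x)
    (hall : ∀ z : (Σ n : ℕ, Fin (n + 1) → Fin m) × ℕ × (Fin (Module.finrank ℝ E) × Bool),
      1 ≤ z.1.1 → μH[((2 * d - 2 : ℕ) : ℝ)] (Lines3 h P1 P2 (dirs E z.2.2) z.1.1 (extn z.1.2)
        (1 / ((z.2.1 : ℝ) + 1)) ((z.2.1 : ℝ) + 1)) = 0) :
    μH[((2 * d - 2 : ℕ) : ℝ)] (MovG h P1 P2) = 0 := by
  have hs : (0 : ℝ) ≤ ((2 * d - 2 : ℕ) : ℝ) := Nat.cast_nonneg _
  have h0 := null_MovG0 HL HPr hd hE hh hP1 hP2 hall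
  obtain ⟨hH, hT⟩ := HPr E m h hh
  refine measure_mono_null ?_ (measure_iUnion_null fun k =>
    null_Back hH hs (MovG0 h P1 P2) h0 k)
  rintro ⟨q, v⟩ ⟨n, ι, p, u, HW, hp, hu, a, b, hab, hbn, hret, c, hc1, hc2⟩
  simp only at hp hu
  have HTr := hT n ι p u HW
  have hk : (p a, u a) ∈ MovG0 h P1 P2 := by
    obtain ⟨j, rfl⟩ : ∃ j, b = j + a := ⟨b - a, by omega⟩
    refine ⟨j, _, _, _, by omega, (HW.mono hbn).shift, by simp, by simp, by simpa using hret, c,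
      by simpa using hc1, fun k hk hkj => hc2 (k + a) (by omega) (by omega)⟩
  have := HTr.mem_back (A := MovG0 h P1 P2) (k := a) a (by omega) le_rfl hk
  rw [Nat.sub_self, hp, hu] at this
  exact mem_iUnion.2 ⟨a, this⟩

/-- **Transversality for billiards.** -/
theorem ae_Movable (HC : S_CORE3) (HK : S_CLOSED3) (HD : S_DER) (HL : S_LOOP3) (HPr : S_PROD)
    (μ : Measure S) [μ.IsAddHaarMeasure] {d : ℕ} (hd : 2 ≤ d) (hE : Module.finrank ℝ E = d)
    {h : Fin m → S → E → ℝ} (hh : ∀ i, ContDiff ℝ 2 (fun z : S × E => h i z.1 z.2)) :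
    ∀ᵐ s ∂μ, μH[((2 * d - 2 : ℕ) : ℝ)] (Movable h s) = 0 := by
  have hall : ∀ᵐ s ∂μ, ∀ z : (Σ n : ℕ, Fin (n + 1) → Fin m) × ℕ ×
      (Fin (Module.finrank ℝ E) × Bool), 1 ≤ z.1.1 →
      μH[((2 * d - 2 : ℕ) : ℝ)] (Lines3 (fun i => h i s) (fun i b x => D1 (h i) s b x)
        (fun i b x => D2 (h i) s b x) (dirs E z.2.2) z.1.1 (extn z.1.2) (1 / ((z.2.1 : ℝ) + 1))
        ((z.2.1 : ℝ) + 1)) = 0 := by
    rw [ae_all_iff]
    intro z
    by_cases hz : 1 ≤ z.1.1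
    · filter_upwards [ae_Lines3 HC HK HD μ hE hh (dirs_norm z.2.2) hz (extn z.1.2)
        (c := 1 / ((z.2.1 : ℝ) + 1)) (M := (z.2.1 : ℝ) + 1) (by positivity)] with s hs _
      exact hs
    · exact Eventually.of_forall fun s h => absurd h hz
  filter_upwards [hall] with s hall
  have hhs : ∀ i, ContDiff ℝ 2 (h i s) := fun i => (hh i).comp (contDiff_const.prodMk contDiff_id)
  exact null_MovG HL HPr hd hE hhs (P1 := fun i b x => D1 (h i) s b x)
    (P2 := fun i b x => D2 (h i) s b x) (fun i c x => by simp [D1]) (fun i c x => by simp [D2]) hall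

end meas

end Q263.IW
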